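import Mathlib

set_option autoImplicit false

open MeasureTheory Set

namespace Pool.Agent.Helper988.KC

abbrev E3 := EuclideanSpace ℝ (Fin 3)

/-- `A` is the vertex set of a nonempty face of the convex set `P`. -/
def IsFaceSet (P A : Set E3) : Prop :=
  ∃ F : Set E3, IsExposed ℝ P F ∧ F.Nonempty ∧ A = F ∩ P.extremePoints ℝ

/-- Same combinatorial type: a bijection of the vertices which matches the vertex sets of faces. -/
def SameType (P Q : Set E3) : Prop :=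
  ∃ f : E3 → E3, Set.BijOn f (P.extremePoints ℝ) (Q.extremePoints ℝ) ∧
    ∀ A : Set E3, A ⊆ P.extremePoints ℝ → (IsFaceSet P A ↔ IsFaceSet Q (f '' A))

/-- A convex polyhedron: convex hull of a finite set, with nonempty interior. -/
def IsPolyhedron (P : Set E3) : Prop :=
  (∃ S : Finset E3, P = convexHull ℝ (S : Set E3)) ∧ (interior P).Nonempty

/-- Every edge is tangent to the unit sphere. -/
def IsMidscribed (P : Set E3) : Prop :=
  ∀ v w : E3, v ≠ w → IsExposed ℝ P (segment ℝ v w) →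
    (∃ p ∈ segment ℝ v w, ‖p‖ = 1) ∧ ∀ q ∈ affineSpan ℝ ({v, w} : Set E3), 1 ≤ ‖q‖

/-- the center of mass of the solid -/
noncomputable def cm3 (P : Set E3) : E3 := (volume.real P)⁻¹ • ∫ x in P, x

/-- the square pyramid -/
noncomputable def pt : Fin 5 → E3 :=
  ![!₂[0, 0, 1], !₂[1, 1, 0], !₂[-1, 1, 0], !₂[-1, -1, 0], !₂[1, -1, 0]]

noncomputable def pyr : Set E3 := convexHull ℝ (Set.range pt)

/-- the determinant of three vectors -/
def dt (u v w : E3) : ℝ :=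
  u 0 * (v 1 * w 2 - v 2 * w 1) - u 1 * (v 0 * w 2 - v 2 * w 0) + u 2 * (v 0 * w 1 - v 1 * w 0)

noncomputable def e1 : E3 := !₂[1, 0, 0]
noncomputable def e2 : E3 := !₂[0, 1, 0]
noncomputable def e3 : E3 := !₂[0, 0, 1]

/-- standard simplex -/
noncomputable def sx : Set E3 := convexHull ℝ {0, e1, e2, e3}

theorem edge_inner (v w : E3) (h1 : ∃ p ∈ segment ℝ v w, ‖p‖ = 1)
    (h2 : ∀ q ∈ affineSpan ℝ ({v, w} : Set E3), 1 ≤ ‖q‖) :
    1 ≤ ‖v‖ ∧ 1 ≤ ‖w‖ ∧
    inner ℝ v w = 1 - Real.sqrt (‖v‖ ^ 2 - 1) * Real.sqrt (‖w‖ ^ 2 - 1) := by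
  obtain ⟨p, hp, hp1⟩ := h1
  rw [segment_eq_image'] at hp
  obtain ⟨s, ⟨hs0, hs1⟩, rfl⟩ := hp
  have hv : v ∈ affineSpan ℝ ({v, w} : Set E3) := subset_affineSpan ℝ _ (by simp)
  have hw : w ∈ affineSpan ℝ ({v, w} : Set E3) := subset_affineSpan ℝ _ (by simp)
  refine ⟨h2 v hv, h2 w hw, ?_⟩
  obtain ⟨d, hd⟩ : ∃ d : E3, d = w - v := ⟨_, rfl⟩
  have hw' : w = v + d := by rw [hd]; abel
  have hline : ∀ t : ℝ, 1 ≤ ‖v + t • d‖ ^ 2 := by
    intro t
    have h3 : v + t • d ∈ affineSpan ℝ ({v, w} : Set E3) := by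
      have h4 := AffineMap.lineMap_mem_affineSpan_pair t v w
      rw [AffineMap.lineMap_apply, vsub_eq_sub, vadd_eq_add, ← hd, add_comm] at h4
      exact h4
    have h5 := h2 _ h3
    nlinarith
  have hexp : ∀ t : ℝ, ‖v + t • d‖ ^ 2 = ‖v‖ ^ 2 + 2 * t * inner ℝ v d + t ^ 2 * ‖d‖ ^ 2 := by
    intro t
    rw [norm_add_sq_real, inner_smul_right, norm_smul, mul_pow, Real.norm_eq_abs, sq_abs]
    ring
  rw [← hd] at hp1
  have hps : ‖v‖ ^ 2 + 2 * s * inner ℝ v d + s ^ 2 * ‖d‖ ^ 2 = 1 := by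
    rw [← hexp s, hp1]; norm_num
  obtain ⟨a, ha⟩ : ∃ a : ℝ, a = ‖v‖ ^ 2 := ⟨_, rfl⟩
  obtain ⟨b, hb⟩ : ∃ b : ℝ, b = inner ℝ v d := ⟨_, rfl⟩
  obtain ⟨L, hL⟩ : ∃ L : ℝ, L = ‖d‖ := ⟨_, rfl⟩
  have hL0 : 0 ≤ L := by rw [hL]; exact norm_nonneg _
  rw [← ha, ← hb, ← hL] at hps
  have hmin : ∀ t : ℝ, 0 ≤ 2 * (t - s) * b + (t ^ 2 - s ^ 2) * L ^ 2 := by
    intro t
    have h6 := hline t
    rw [hexp t, ← ha, ← hb, ← hL] at h6
    nlinarith
  -- stationarity
  have hst : b + s * L ^ 2 = 0 := by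
    have hq : ∀ r : ℝ, 0 ≤ 2 * r * (b + s * L ^ 2) + r ^ 2 * L ^ 2 := by
      intro r
      have := hmin (s + r)
      nlinarith
    by_contra hne
    have hM : 0 < L ^ 2 + 1 := by positivity
    have h7 := hq (-(b + s * L ^ 2) / (L ^ 2 + 1))
    have h8 : 2 * (-(b + s * L ^ 2) / (L ^ 2 + 1)) * (b + s * L ^ 2) +
        (-(b + s * L ^ 2) / (L ^ 2 + 1)) ^ 2 * L ^ 2 =
        -((b + s * L ^ 2) ^ 2 * (L ^ 2 + 2)) / (L ^ 2 + 1) ^ 2 := by
      field_simp
      ring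
    rw [h8] at h7
    have h9 : 0 < (b + s * L ^ 2) ^ 2 := by positivity
    have h10 : -((b + s * L ^ 2) ^ 2 * (L ^ 2 + 2)) / (L ^ 2 + 1) ^ 2 < 0 := by
      apply div_neg_of_neg_of_pos
      · nlinarith [mul_pos h9 (by positivity : (0 : ℝ) < L ^ 2 + 2)]
      · positivity
    linarith
  have hb' : b = -(s * L ^ 2) := by linarith
  have hav : a = 1 + (s * L) ^ 2 := by rw [hb'] at hps; nlinarith
  have hwn : ‖w‖ ^ 2 = 1 + ((1 - s) * L) ^ 2 := by
    have h11 := hexp 1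
    rw [one_smul, ← hw', ← ha, ← hb, ← hL] at h11
    rw [h11, hav, hb']
    ring
  have hin : inner ℝ v w = 1 - (s * L) * ((1 - s) * L) := by
    rw [hw', inner_add_right, real_inner_self_eq_norm_sq, ← ha, ← hb, hav, hb']
    ring
  rw [hin, hwn, ← ha, hav]
  have e1 : 1 + (s * L) ^ 2 - 1 = (s * L) ^ 2 := by ring
  have e2 : 1 + ((1 - s) * L) ^ 2 - 1 = ((1 - s) * L) ^ 2 := by ring
  rw [e1, e2, Real.sqrt_sq (by positivity), Real.sqrt_sq (mul_nonneg (by linarith) hL0)]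

theorem core_real (τ t1 t2 t3 t4 k l : ℝ) (hτ : 0 < τ) (h1 : 0 < t1) (h2 : 0 < t2)
    (h3 : 0 < t3) (h4 : 0 < t4) (α1 α2 α3 α4 : ℝ) (p1 : 0 < α1) (p2 : 0 < α2) (p3 : 0 < α3)
    (p4 : 0 < α4) (s13 : α1 + α3 = 1) (s24 : α2 + α4 = 1)
    (E1 : α1 * (1 + t1 ^ 2) + α3 * (1 - k) = α2 * (1 - t1 * t2) + α4 * (1 - t4 * t1))
    (E3 : α1 * (1 - k) + α3 * (1 + t3 ^ 2) = α2 * (1 - t2 * t3) + α4 * (1 - t3 * t4))
    (E2 : α1 * (1 - t1 * t2) + α3 * (1 - t2 * t3) = α2 * (1 + t2 ^ 2) + α4 * (1 - l))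
    (E4 : α1 * (1 - t4 * t1) + α3 * (1 - t3 * t4) = α2 * (1 - l) + α4 * (1 + t4 ^ 2))
    (Ea : α1 * (1 - τ * t1) + α3 * (1 - τ * t3) = α2 * (1 - τ * t2) + α4 * (1 - τ * t4))
    (Ca : (1 + τ ^ 2) + (1 - τ * t1) + (1 - τ * t2) + (1 - τ * t3) + (1 - τ * t4)
      - (α1 * (1 - τ * t1) + α3 * (1 - τ * t3)) = 0)
    (C1 : (1 - τ * t1) + (1 + t1 ^ 2) + (1 - t1 * t2) + (1 - k) + (1 - t4 * t1)
      - (α1 * (1 + t1 ^ 2) + α3 * (1 - k)) = 0)
    (C3 : (1 - τ * t3) + (1 - k) + (1 - t2 * t3) + (1 + t3 ^ 2) + (1 - t3 * t4)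
      - (α1 * (1 - k) + α3 * (1 + t3 ^ 2)) = 0)
    (C2 : (1 - τ * t2) + (1 - t1 * t2) + (1 + t2 ^ 2) + (1 - t2 * t3) + (1 - l)
      - (α1 * (1 - t1 * t2) + α3 * (1 - t2 * t3)) = 0)
    (C4 : (1 - τ * t4) + (1 - t4 * t1) + (1 - l) + (1 - t3 * t4) + (1 + t4 ^ 2)
      - (α1 * (1 - t4 * t1) + α3 * (1 - t3 * t4)) = 0) : False := by
  have E1' : α3 * k = α1 * t1 ^ 2 + t1 * (α2 * t2 + α4 * t4) := by
    linear_combination -E1 + s13 - s24
  have E3' : α1 * k = α3 * t3 ^ 2 + t3 * (α2 * t2 + α4 * t4) := by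
    linear_combination -E3 + s13 - s24
  have E2' : α4 * l = α2 * t2 ^ 2 + t2 * (α1 * t1 + α3 * t3) := by
    linear_combination E2 - s13 + s24
  have E4' : α2 * l = α4 * t4 ^ 2 + t4 * (α1 * t1 + α3 * t3) := by
    linear_combination E4 - s13 + s24
  have hb13 : α1 * t1 - α3 * t3 = 0 := by
    have h : (α1 * t1 - α3 * t3) * (α1 * t1 + α3 * t3 + α2 * t2 + α4 * t4) = 0 := by
      linear_combination -α1 * E1' + α3 * E3'
    rcases mul_eq_zero.mp h with h | h
    · exact h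
    · exfalso
      have : 0 < α1 * t1 + α3 * t3 + α2 * t2 + α4 * t4 := by positivity
      linarith
  have hb24 : α2 * t2 - α4 * t4 = 0 := by
    have h : (α2 * t2 - α4 * t4) * (α1 * t1 + α3 * t3 + α2 * t2 + α4 * t4) = 0 := by
      linear_combination -α2 * E2' + α4 * E4'
    rcases mul_eq_zero.mp h with h | h
    · exact h
    · exfalso
      have : 0 < α1 * t1 + α3 * t3 + α2 * t2 + α4 * t4 := by positivity
      linarith
  have hsum : α1 * t1 + α3 * t3 - (α2 * t2 + α4 * t4) = 0 := by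
    have h : τ * (α1 * t1 + α3 * t3 - (α2 * t2 + α4 * t4)) = 0 := by
      linear_combination -Ea + s13 - s24
    rcases mul_eq_zero.mp h with h | h
    · exfalso; linarith
    · exact h
  obtain ⟨b, hb⟩ : ∃ b : ℝ, b = α1 * t1 := ⟨_, rfl⟩
  have hb0 : 0 < b := by rw [hb]; positivity
  have q1 : α1 * t1 = b := hb.symm
  have q3 : α3 * t3 = b := by linarith
  have q2 : α2 * t2 = b := by linarith
  have q4 : α4 * t4 = b := by linarith
  have hk : k = 3 * t1 * t3 := by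
    have h : b * k = b * (3 * t1 * t3) := by
      linear_combination t3 * E1' - k * q3 + t1 * t3 * (q1 + q2 + q4)
    exact mul_left_cancel₀ hb0.ne' h
  have hl : l = 3 * t2 * t4 := by
    have h : b * l = b * (3 * t2 * t4) := by
      linear_combination t4 * E2' - l * q4 + t2 * t4 * (q1 + q2 + q3)
    exact mul_left_cancel₀ hb0.ne' h
  have r13 : (t1 + t3) * b = t1 * t3 := by
    linear_combination t1 * t3 * s13 - t3 * q1 - t1 * q3
  have r24 : (t2 + t4) * b = t2 * t4 := by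
    linear_combination t2 * t4 * s24 - t4 * q2 - t2 * q4
  have Ca' : τ ^ 2 + 4 - τ * (t1 + t2 + t3 + t4) + 2 * τ * b = 0 := by
    linear_combination Ca + s13 - τ * q1 - τ * q3
  have C1' : 4 - τ * t1 + t1 ^ 2 - t1 * t2 - 3 * t1 * t3 - t1 * t4 + 2 * b * t1 = 0 := by
    linear_combination C1 + E1 + hk + s24 - t1 * q2 - t1 * q4
  have C3' : 4 - τ * t3 + t3 ^ 2 - t2 * t3 - 3 * t1 * t3 - t3 * t4 + 2 * b * t3 = 0 := by
    linear_combination C3 + E3 + hk + s24 - t3 * q2 - t3 * q4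
  have C2' : 4 - τ * t2 + t2 ^ 2 - t1 * t2 - 3 * t2 * t4 - t2 * t3 + 2 * b * t2 = 0 := by
    linear_combination C2 + hl + s13 - t2 * q1 - t2 * q3
  have C4' : 4 - τ * t4 + t4 ^ 2 - t1 * t4 - 3 * t2 * t4 - t3 * t4 + 2 * b * t4 = 0 := by
    linear_combination C4 + hl + s13 - t4 * q1 - t4 * q3
  have d13 : (t3 - t1) * (1 - t1 * t3) = 0 := by
    linear_combination (1 / 4 : ℝ) * (t3 * C1' - t1 * C3')
  have d24 : (t4 - t2) * (1 - t2 * t4) = 0 := by
    linear_combination (1 / 4 : ℝ) * (t4 * C2' - t2 * C4')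
  have m13 : 2 = b * (τ + (t1 + t2 + t3 + t4) - 2 * b) := by
    have h : (t1 * t3) * 2 = (t1 * t3) * (b * (τ + (t1 + t2 + t3 + t4) - 2 * b)) := by
      linear_combination (-2 : ℝ) * r13 + (b / 2) * (t3 * C1' + t1 * C3')
    exact mul_left_cancel₀ (by positivity) h
  have hτb : τ = b * (τ ^ 2 + 2) := by
    linear_combination (τ / 2) * m13 - (b / 2) * Ca'
  have c13 : (t1 = 2 * b ∧ t3 = 2 * b) ∨ (t1 + t3) * b = 1 := by
    rcases mul_eq_zero.mp d13 with h | h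
    · left
      have e : t3 = t1 := by linarith
      rw [e] at r13
      have h5 : t1 * (2 * b) = t1 * t1 := by linear_combination r13
      have h6 := mul_left_cancel₀ h1.ne' h5
      exact ⟨h6.symm, by rw [e]; exact h6.symm⟩
    · right
      linarith
  have c24 : (t2 = 2 * b ∧ t4 = 2 * b) ∨ (t2 + t4) * b = 1 := by
    rcases mul_eq_zero.mp d24 with h | h
    · left
      have e : t4 = t2 := by linarith
      rw [e] at r24
      have h5 : t2 * (2 * b) = t2 * t2 := by linear_combination r24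
      have h6 := mul_left_cancel₀ h2.ne' h5
      exact ⟨h6.symm, by rw [e]; exact h6.symm⟩
    · right
      linarith
  have mixed : ∀ u v : ℝ, u = 4 * b → v * b = 1 → t1 + t2 + t3 + t4 = u + v → False := by
    intro u v hu hv hs
    rw [hs, hu] at Ca'
    -- τ b = 1
    have h5 : b * (τ * b) = b * 1 := by
      linear_combination (-(b / 2)) * Ca' - (1 / 2 : ℝ) * hτb - (τ / 2) * hv
    have h6 := mul_left_cancel₀ hb0.ne' h5
    have h7 : τ ^ 2 = τ ^ 2 + 2 := by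
      linear_combination τ * hτb + (τ ^ 2 + 2) * h6
    linarith
  rcases c13 with ⟨a1, a3⟩ | c13 <;> rcases c24 with ⟨a2, a4⟩ | c24
  · rw [a1, a2, a3, a4] at Ca'
    have h5 : τ ^ 4 + 8 = 0 := by
      linear_combination (τ ^ 2 + 2) * Ca' - (6 * τ) * hτb
    have : 0 < τ ^ 4 := by positivity
    linarith
  · exact mixed (t1 + t3) (t2 + t4) (by rw [a1, a3]; ring) c24 (by ring)
  · exact mixed (t2 + t4) (t1 + t3) (by rw [a2, a4]; ring) c13 (by ring)
  · have h5 : b * τ = b * (2 * b) := by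
      linear_combination -m13 - c13 - c24
    have h6 := mul_left_cancel₀ hb0.ne' h5
    have h7 : b * 2 = b * (τ ^ 2 + 2) := by
      rw [← hτb, h6]; ring
    have h8 := mul_left_cancel₀ hb0.ne' h7
    have : 0 < τ ^ 2 := by positivity
    linarith

theorem core (a b1 b2 b3 b4 : E3) (τ t1 t2 t3 t4 : ℝ) (hτ : 0 < τ) (h1 : 0 < t1) (h2 : 0 < t2)
    (h3 : 0 < t3) (h4 : 0 < t4)
    (haa : inner ℝ a a = 1 + τ ^ 2) (h11 : inner ℝ b1 b1 = 1 + t1 ^ 2)
    (h22 : inner ℝ b2 b2 = 1 + t2 ^ 2) (h33 : inner ℝ b3 b3 = 1 + t3 ^ 2)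
    (h44 : inner ℝ b4 b4 = 1 + t4 ^ 2)
    (ha1 : inner ℝ a b1 = 1 - τ * t1) (ha2 : inner ℝ a b2 = 1 - τ * t2)
    (ha3 : inner ℝ a b3 = 1 - τ * t3) (ha4 : inner ℝ a b4 = 1 - τ * t4)
    (h12 : inner ℝ b1 b2 = 1 - t1 * t2) (h23 : inner ℝ b2 b3 = 1 - t2 * t3)
    (h34 : inner ℝ b3 b4 = 1 - t3 * t4) (h41 : inner ℝ b4 b1 = 1 - t4 * t1)
    (α1 α2 α3 α4 : ℝ) (p1 : 0 < α1) (p2 : 0 < α2) (p3 : 0 < α3) (p4 : 0 < α4)
    (s13 : α1 + α3 = 1) (s24 : α2 + α4 = 1)
    (hx : α1 • b1 + α3 • b3 = α2 • b2 + α4 • b4)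
    (hc : a + b1 + b2 + b3 + b4 - (α1 • b1 + α3 • b3) = 0) : False := by
  obtain ⟨k, hk⟩ : ∃ k : ℝ, inner ℝ b1 b3 = 1 - k := ⟨1 - inner ℝ b1 b3, by ring⟩
  obtain ⟨l, hl⟩ : ∃ l : ℝ, inner ℝ b2 b4 = 1 - l := ⟨1 - inner ℝ b2 b4, by ring⟩
  have hk' : inner ℝ b3 b1 = 1 - k := by rw [real_inner_comm]; exact hk
  have hl' : inner ℝ b4 b2 = 1 - l := by rw [real_inner_comm]; exact hl
  have h1a : inner ℝ b1 a = 1 - τ * t1 := by rw [real_inner_comm]; exact ha1
  have h2a : inner ℝ b2 a = 1 - τ * t2 := by rw [real_inner_comm]; exact ha2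
  have h3a : inner ℝ b3 a = 1 - τ * t3 := by rw [real_inner_comm]; exact ha3
  have h4a : inner ℝ b4 a = 1 - τ * t4 := by rw [real_inner_comm]; exact ha4
  have h21 : inner ℝ b2 b1 = 1 - t1 * t2 := by rw [real_inner_comm]; exact h12
  have h32 : inner ℝ b3 b2 = 1 - t2 * t3 := by rw [real_inner_comm]; exact h23
  have h43 : inner ℝ b4 b3 = 1 - t3 * t4 := by rw [real_inner_comm]; exact h34
  have h14 : inner ℝ b1 b4 = 1 - t4 * t1 := by rw [real_inner_comm]; exact h41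
  have ex : ∀ w : E3, α1 * inner ℝ b1 w + α3 * inner ℝ b3 w
      = α2 * inner ℝ b2 w + α4 * inner ℝ b4 w := by
    intro w
    have h := congrArg (fun v => inner ℝ v w) hx
    simpa only [inner_add_left, real_inner_smul_left] using h
  have ec : ∀ w : E3, inner ℝ a w + inner ℝ b1 w + inner ℝ b2 w + inner ℝ b3 w + inner ℝ b4 w
      - (α1 * inner ℝ b1 w + α3 * inner ℝ b3 w) = 0 := by
    intro w
    have h := congrArg (fun v => inner ℝ v w) hc
    simpa only [inner_add_left, inner_sub_left, real_inner_smul_left, inner_zero_left] using h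
  have E1 := ex b1
  have E2 := ex b2
  have E3 := ex b3
  have E4 := ex b4
  have Ea := ex a
  have Ca := ec a
  have C1 := ec b1
  have C2 := ec b2
  have C3 := ec b3
  have C4 := ec b4
  rw [h11, hk', h21, h41] at E1
  rw [h12, h32, h22, hl'] at E2
  rw [hk, h33, h23, h43] at E3
  rw [h14, h34, hl, h44] at E4
  rw [h1a, h3a, h2a, h4a] at Ea
  rw [haa, h1a, h2a, h3a, h4a] at Ca
  rw [ha1, h11, h21, hk', h41] at C1
  rw [ha2, h12, h22, h32, hl'] at C2
  rw [ha3, hk, h23, h33, h43] at C3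
  rw [ha4, h14, hl, h34, h44] at C4
  exact core_real τ t1 t2 t3 t4 k l hτ h1 h2 h3 h4 α1 α2 α3 α4 p1 p2 p3 p4 s13 s24
    E1 E3 E2 E4 Ea Ca C1 C3 C2 C4

theorem bcr_app (f : E3 →L[ℝ] ℝ) (v : E3) : f v = v 0 * f e1 + v 1 * f e2 + v 2 * f e3 := by
  have h : v = v 0 • e1 + v 1 • e2 + v 2 • e3 := by
    ext i
    fin_cases i <;> simp [e1, e2, e3]
  conv_lhs => rw [h]
  simp only [map_add, map_smul, smul_eq_mul]

theorem bcr_lin (b1 b2 b3 b4 : E3) (l : E3 →L[ℝ] ℝ) (M : ℝ)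
    (hl : l ≠ 0) (hl1 : l b1 = M) (hl2 : l b2 = M) (hl3 : l b3 = M) (hl4 : l b4 = M) :
    ∃ c1 c2 c3 c4 : ℝ, ¬ (c1 = 0 ∧ c2 = 0 ∧ c3 = 0 ∧ c4 = 0) ∧ c1 + c2 + c3 + c4 = 0 ∧
      c1 • b1 + c2 • b2 + c3 • b3 + c4 • b4 = 0 := by
  set A : Matrix (Fin 4) (Fin 4) ℝ :=
    !![b1 0, b1 1, b1 2, 1; b2 0, b2 1, b2 2, 1; b3 0, b3 1, b3 2, 1; b4 0, b4 1, b4 2, 1] with hA
  have hdet : A.det = 0 := by
    rw [← Matrix.exists_mulVec_eq_zero_iff]
    refine ⟨![l e1, l e2, l e3, -M], ?_, ?_⟩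
    · intro h0
      apply hl
      have g1 : l e1 = 0 := by simpa using congrFun h0 0
      have g2 : l e2 = 0 := by simpa using congrFun h0 1
      have g3 : l e3 = 0 := by simpa using congrFun h0 2
      ext v
      rw [bcr_app l v, g1, g2, g3]
      simp
    · have k1 := bcr_app l b1
      have k2 := bcr_app l b2
      have k3 := bcr_app l b3
      have k4 := bcr_app l b4
      rw [hl1] at k1
      rw [hl2] at k2
      rw [hl3] at k3
      rw [hl4] at k4
      ext i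
      fin_cases i
      · simp [hA, Matrix.mulVec, dotProduct, Fin.sum_univ_four]
        linarith
      · simp [hA, Matrix.mulVec, dotProduct, Fin.sum_univ_four]
        linarith
      · simp [hA, Matrix.mulVec, dotProduct, Fin.sum_univ_four]
        linarith
      · simp [hA, Matrix.mulVec, dotProduct, Fin.sum_univ_four]
        linarith
  obtain ⟨c, hc0, hc⟩ := Matrix.exists_vecMul_eq_zero_iff.2 hdet
  refine ⟨c 0, c 1, c 2, c 3, ?_, ?_, ?_⟩
  · rintro ⟨g0, g1, g2, g3⟩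
    apply hc0
    ext i
    fin_cases i
    · exact g0
    · exact g1
    · exact g2
    · exact g3
  · have h := congrFun hc 3
    simp [hA, Matrix.vecMul, dotProduct, Fin.sum_univ_four] at h
    linarith
  · ext i
    fin_cases i
    · have h := congrFun hc 0
      simp [hA, Matrix.vecMul, dotProduct, Fin.sum_univ_four] at h
      simpa using h
    · have h := congrFun hc 1
      simp [hA, Matrix.vecMul, dotProduct, Fin.sum_univ_four] at h
      simpa using h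
    · have h := congrFun hc 2
      simp [hA, Matrix.vecMul, dotProduct, Fin.sum_univ_four] at h
      simpa using h

theorem bcr_pos (b1 b2 b3 b4 : E3) (l12 l23 l34 l41 : E3 →L[ℝ] ℝ) (M12 M23 M34 M41 : ℝ)
    (h12 : l12 b1 = M12 ∧ l12 b2 = M12 ∧ l12 b3 < M12 ∧ l12 b4 < M12)
    (h23 : l23 b2 = M23 ∧ l23 b3 = M23 ∧ l23 b4 < M23 ∧ l23 b1 < M23)
    (h34 : l34 b3 = M34 ∧ l34 b4 = M34 ∧ l34 b1 < M34 ∧ l34 b2 < M34)
    (c1 c2 c3 c4 : ℝ) (hc : 0 < c1)
    (hs : c1 + c2 + c3 + c4 = 0) (hv : c1 • b1 + c2 • b2 + c3 • b3 + c4 • b4 = 0) :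
    ∃ α1 α2 α3 α4 : ℝ, 0 < α1 ∧ 0 < α2 ∧ 0 < α3 ∧ 0 < α4 ∧ α1 + α3 = 1 ∧ α2 + α4 = 1 ∧
      α1 • b1 + α3 • b3 = α2 • b2 + α4 • b4 := by
  have key : ∀ f : E3 →L[ℝ] ℝ, c1 * f b1 + c2 * f b2 + c3 * f b3 + c4 * f b4 = 0 := by
    intro f
    have h := congrArg f hv
    simpa only [map_add, map_smul, smul_eq_mul, map_zero] using h
  have k12 := key l12
  have k23 := key l23
  have k34 := key l34
  obtain ⟨a1, a2, a3, a4⟩ := h12
  obtain ⟨b1', b2', b3', b4'⟩ := h23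
  obtain ⟨d1, d2, d3, d4⟩ := h34
  rw [a1, a2] at k12
  rw [b1', b2'] at k23
  rw [d1, d2] at k34
  have e12 : c3 * (M12 - l12 b3) + c4 * (M12 - l12 b4) = 0 := by
    linear_combination M12 * hs - k12
  have e23 : c4 * (M23 - l23 b4) + c1 * (M23 - l23 b1) = 0 := by
    linear_combination M23 * hs - k23
  have e34 : c1 * (M34 - l34 b1) + c2 * (M34 - l34 b2) = 0 := by
    linear_combination M34 * hs - k34
  have p1 : 0 < M12 - l12 b3 := by linarith
  have p2 : 0 < M12 - l12 b4 := by linarith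
  have p3 : 0 < M23 - l23 b4 := by linarith
  have p4 : 0 < M23 - l23 b1 := by linarith
  have p5 : 0 < M34 - l34 b1 := by linarith
  have p6 : 0 < M34 - l34 b2 := by linarith
  have hc4 : c4 < 0 := by
    by_contra h
    have := mul_nonneg (not_lt.1 h) p3.le
    have := mul_pos hc p4
    linarith
  have hc2 : c2 < 0 := by
    by_contra h
    have := mul_nonneg (not_lt.1 h) p6.le
    have := mul_pos hc p5
    linarith
  have hc3 : 0 < c3 := by
    by_contra h
    have h1 := mul_nonpos_of_nonpos_of_nonneg (not_lt.1 h) p1.le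
    have h2 := mul_neg_of_neg_of_pos hc4 p2
    linarith
  have hS : 0 < c1 + c3 := by linarith
  refine ⟨c1 / (c1 + c3), -c2 / (c1 + c3), c3 / (c1 + c3), -c4 / (c1 + c3),
    div_pos hc hS, div_pos (by linarith) hS, div_pos hc3 hS, div_pos (by linarith) hS, ?_, ?_, ?_⟩
  · rw [← add_div, div_self hS.ne']
  · rw [← add_div, div_eq_one_iff_eq hS.ne']; linarith
  · have h1 : (c1 / (c1 + c3)) • b1 + (c3 / (c1 + c3)) • b3 -
        ((-c2 / (c1 + c3)) • b2 + (-c4 / (c1 + c3)) • b4) =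
        (c1 + c3)⁻¹ • (c1 • b1 + c2 • b2 + c3 • b3 + c4 • b4) := by
      simp only [smul_add, smul_smul, div_eq_inv_mul, mul_neg, neg_smul]
      abel
    rw [hv, smul_zero] at h1
    exact sub_eq_zero.1 h1

theorem base_cross (b1 b2 b3 b4 : E3) (l l12 l23 l34 l41 : E3 →L[ℝ] ℝ) (M M12 M23 M34 M41 : ℝ)
    (hl : l ≠ 0) (hl1 : l b1 = M) (hl2 : l b2 = M) (hl3 : l b3 = M) (hl4 : l b4 = M)
    (h12 : l12 b1 = M12 ∧ l12 b2 = M12 ∧ l12 b3 < M12 ∧ l12 b4 < M12)
    (h23 : l23 b2 = M23 ∧ l23 b3 = M23 ∧ l23 b4 < M23 ∧ l23 b1 < M23)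
    (h34 : l34 b3 = M34 ∧ l34 b4 = M34 ∧ l34 b1 < M34 ∧ l34 b2 < M34)
    (h41 : l41 b4 = M41 ∧ l41 b1 = M41 ∧ l41 b2 < M41 ∧ l41 b3 < M41) :
    ∃ α1 α2 α3 α4 : ℝ, 0 < α1 ∧ 0 < α2 ∧ 0 < α3 ∧ 0 < α4 ∧ α1 + α3 = 1 ∧ α2 + α4 = 1 ∧
      α1 • b1 + α3 • b3 = α2 • b2 + α4 • b4 := by
  obtain ⟨c1, c2, c3, c4, hne, hs, hv⟩ := bcr_lin b1 b2 b3 b4 l M hl hl1 hl2 hl3 hl4
  rcases lt_trichotomy c1 0 with h | h | h
  · refine bcr_pos b1 b2 b3 b4 l12 l23 l34 l41 M12 M23 M34 M41 h12 h23 h34 (-c1) (-c2) (-c3) (-c4)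
      (by linarith) (by linarith) ?_
    have h1 : (-c1) • b1 + (-c2) • b2 + (-c3) • b3 + (-c4) • b4 =
        -(c1 • b1 + c2 • b2 + c3 • b3 + c4 • b4) := by
      simp only [neg_smul]
      abel
    rw [h1, hv, neg_zero]
  · exfalso
    apply hne
    have key : ∀ f : E3 →L[ℝ] ℝ, c1 * f b1 + c2 * f b2 + c3 * f b3 + c4 * f b4 = 0 := by
      intro f
      have h := congrArg f hv
      simpa only [map_add, map_smul, smul_eq_mul, map_zero] using h
    have k12 := key l12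
    have k23 := key l23
    have k34 := key l34
    obtain ⟨a1, a2, a3, a4⟩ := h12
    obtain ⟨b1', b2', b3', b4'⟩ := h23
    obtain ⟨d1, d2, d3, d4⟩ := h34
    rw [a1, a2] at k12
    rw [b1', b2'] at k23
    rw [d1, d2] at k34
    have e12 : c3 * (M12 - l12 b3) + c4 * (M12 - l12 b4) = 0 := by
      linear_combination M12 * hs - k12
    have e23 : c4 * (M23 - l23 b4) + c1 * (M23 - l23 b1) = 0 := by
      linear_combination M23 * hs - k23
    have e34 : c1 * (M34 - l34 b1) + c2 * (M34 - l34 b2) = 0 := by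
      linear_combination M34 * hs - k34
    rw [h, zero_mul, add_zero] at e23
    rw [h, zero_mul, zero_add] at e34
    have hc4 : c4 = 0 := by
      rcases mul_eq_zero.1 e23 with h' | h'
      · exact h'
      · linarith
    have hc2 : c2 = 0 := by
      rcases mul_eq_zero.1 e34 with h' | h'
      · exact h'
      · linarith
    rw [hc4, zero_mul, add_zero] at e12
    have hc3 : c3 = 0 := by
      rcases mul_eq_zero.1 e12 with h' | h'
      · exact h'
      · linarith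
    exact ⟨h, hc2, hc3, hc4⟩
  · exact bcr_pos b1 b2 b3 b4 l12 l23 l34 l41 M12 M23 M34 M41 h12 h23 h34 c1 c2 c3 c4 h hs hv

noncomputable def LL (a b c : E3) : E3 →L[ℝ] E3 :=
  ((EuclideanSpace.proj (0 : Fin 3) : E3 →L[ℝ] ℝ).smulRight a +
    (EuclideanSpace.proj (1 : Fin 3) : E3 →L[ℝ] ℝ).smulRight b) +
    (EuclideanSpace.proj (2 : Fin 3) : E3 →L[ℝ] ℝ).smulRight c

theorem LL_apply (a b c u : E3) : LL a b c u = u 0 • a + u 1 • b + u 2 • c := by
  simp [LL]

theorem LL_det (a b c : E3) : (LL a b c).det = dt a b c := by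
  change LinearMap.det (LL a b c : E3 →ₗ[ℝ] E3) = dt a b c
  rw [← LinearMap.det_toMatrix (EuclideanSpace.basisFun (Fin 3) ℝ).toBasis, Matrix.det_fin_three]
  simp [LinearMap.toMatrix_apply, LL_apply, dt]
  ring

theorem LL_image (v0 v1 v2 v3 : E3) :
    convexHull ℝ {v0, v1, v2, v3} =
      (fun u => v0 + LL (v1 - v0) (v2 - v0) (v3 - v0) u) '' sx := by
  let A : E3 →ᵃ[ℝ] E3 := AffineMap.const ℝ E3 v0 +
    (LL (v1 - v0) (v2 - v0) (v3 - v0) : E3 →ₗ[ℝ] E3).toAffineMap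
  have hA : ∀ u, A u = v0 + LL (v1 - v0) (v2 - v0) (v3 - v0) u := fun u => rfl
  have h1 : (fun u => v0 + LL (v1 - v0) (v2 - v0) (v3 - v0) u) = A := by
    funext u; exact (hA u).symm
  rw [h1, sx, AffineMap.image_convexHull]
  congr 1
  rw [image_insert_eq, image_insert_eq, image_insert_eq, image_singleton, hA, hA, hA, hA]
  simp [LL_apply, e1, e2, e3]

theorem sx_compact : IsCompact sx := by
  unfold sx
  exact (Set.toFinite _).isCompact_convexHull ℝ

theorem cv (v0 v1 v2 v3 : E3) :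
    volume.real (convexHull ℝ {v0, v1, v2, v3}) =
      |dt (v1 - v0) (v2 - v0) (v3 - v0)| * volume.real sx ∧
    ∫ x in convexHull ℝ {v0, v1, v2, v3}, x =
      |dt (v1 - v0) (v2 - v0) (v3 - v0)| •
        (volume.real sx • v0 + (∫ u in sx, u 0) • (v1 - v0) + (∫ u in sx, u 1) • (v2 - v0)
          + (∫ u in sx, u 2) • (v3 - v0)) := by
  set a := v1 - v0
  set b := v2 - v0
  set c := v3 - v0
  have him : convexHull ℝ {v0, v1, v2, v3} = (fun u => v0 + LL a b c u) '' sx :=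
    LL_image v0 v1 v2 v3
  have hcomp : (fun u => v0 + LL a b c u) '' sx = (fun x => v0 + x) '' ((LL a b c) '' sx) := by
    rw [image_image]
  have hvol : volume (convexHull ℝ {v0, v1, v2, v3}) =
      ENNReal.ofReal |dt a b c| * volume sx := by
    rw [him, hcomp, ← LL_det]
    rw [← Measure.addHaar_image_continuousLinearMap]
    rw [image_add_left, measure_preimage_add]
  refine ⟨?_, ?_⟩
  · rw [Measure.real, hvol, ENNReal.toReal_mul, ENNReal.toReal_ofReal (abs_nonneg _)]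
    rfl
  · by_cases hD : dt a b c = 0
    · rw [hD, abs_zero, zero_smul]
      apply setIntegral_measure_zero
      rw [hvol, hD]
      simp
    · have hinj : Function.Injective (LL a b c) := by
        have hdet : LinearMap.det (LL a b c : E3 →ₗ[ℝ] E3) ≠ 0 := by
          have := LL_det a b c
          change LinearMap.det (LL a b c : E3 →ₗ[ℝ] E3) = dt a b c at this
          rw [this]; exact hD
        have hk := LinearMap.ker_eq_bot.1
          ((LinearMap.equivOfDetNeZero (LL a b c : E3 →ₗ[ℝ] E3) hdet).ker)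
        intro x y hxy
        exact hk hxy
      rw [him, integral_image_eq_integral_abs_det_fderiv_smul volume
        sx_compact.measurableSet (f' := fun _ => LL a b c)
        (fun x _ => ((LL a b c).hasFDerivAt.const_add v0).hasFDerivWithinAt)
        (fun x _ y _ h => hinj (add_left_cancel h)) (fun x => x)]
      rw [LL_det, integral_smul]
      congr 1
      have i0 : IntegrableOn (fun u : E3 => u 0) sx volume :=
        (by fun_prop : Continuous (fun u : E3 => u 0)).continuousOn.integrableOn_compact sx_compact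
      have i1 : IntegrableOn (fun u : E3 => u 1) sx volume :=
        (by fun_prop : Continuous (fun u : E3 => u 1)).continuousOn.integrableOn_compact sx_compact
      have i2 : IntegrableOn (fun u : E3 => u 2) sx volume :=
        (by fun_prop : Continuous (fun u : E3 => u 2)).continuousOn.integrableOn_compact sx_compact
      have ic : IntegrableOn (fun _ : E3 => v0) sx volume :=
        continuousOn_const.integrableOn_compact sx_compact
      have e : (fun u : E3 => v0 + LL a b c u) = fun u : E3 => v0 + (u 0 • a + u 1 • b + u 2 • c) := by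
        funext u
        rw [LL_apply]
      have j0 : Integrable (fun u : E3 => u 0 • a) (volume.restrict sx) := i0.smul_const a
      have j1 : Integrable (fun u : E3 => u 1 • b) (volume.restrict sx) := i1.smul_const b
      have j2 : Integrable (fun u : E3 => u 2 • c) (volume.restrict sx) := i2.smul_const c
      have j01 : Integrable (fun u : E3 => u 0 • a + u 1 • b) (volume.restrict sx) := j0.add j1
      have j012 : Integrable (fun u : E3 => u 0 • a + u 1 • b + u 2 • c) (volume.restrict sx) :=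
        j01.add j2
      rw [e, integral_add ic j012, integral_add j01 j2,
        integral_add j0 j1, integral_smul_const, integral_smul_const, integral_smul_const,
        setIntegral_const]
      abel

theorem sxm_e : e1 0 = 1 ∧ e1 1 = 0 ∧ e1 2 = 0 ∧ e2 0 = 0 ∧ e2 1 = 1 ∧ e2 2 = 0 ∧
    e3 0 = 0 ∧ e3 1 = 0 ∧ e3 2 = 1 := by
  refine ⟨?_, ?_, ?_, ?_, ?_, ?_, ?_, ?_, ?_⟩ <;> simp [e1, e2, e3]

theorem sxm_mem (x : E3) (h0 : 0 ≤ x 0) (h1 : 0 ≤ x 1) (h2 : 0 ≤ x 2)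
    (h3 : x 0 + x 1 + x 2 ≤ 1) : x ∈ sx := by
  obtain ⟨a1, a2, a3, b1, b2, b3, c1, c2, c3⟩ := sxm_e
  have h := (convex_convexHull ℝ ({0, e1, e2, e3} : Set E3)).sum_mem
    (t := Finset.univ) (w := ![1 - (x 0 + x 1 + x 2), x 0, x 1, x 2])
    (z := ![0, e1, e2, e3]) (by
      intro i _
      fin_cases i
      · show 0 ≤ 1 - (x 0 + x 1 + x 2)
        linarith
      · exact h0
      · exact h1
      · exact h2) (by
      rw [Fin.sum_univ_four]
      show 1 - (x 0 + x 1 + x 2) + x 0 + x 1 + x 2 = 1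
      ring) (by
      intro i _
      apply subset_convexHull
      fin_cases i
      · show (0 : E3) ∈ ({0, e1, e2, e3} : Set E3)
        simp
      · show e1 ∈ ({0, e1, e2, e3} : Set E3)
        simp
      · show e2 ∈ ({0, e1, e2, e3} : Set E3)
        simp
      · show e3 ∈ ({0, e1, e2, e3} : Set E3)
        simp)
  rw [Fin.sum_univ_four] at h
  have h' : (1 - (x 0 + x 1 + x 2)) • (0 : E3) + x 0 • e1 + x 1 • e2 + x 2 • e3 ∈
      convexHull ℝ ({0, e1, e2, e3} : Set E3) := h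
  have hx : (1 - (x 0 + x 1 + x 2)) • (0 : E3) + x 0 • e1 + x 1 • e2 + x 2 • e3 = x := by
    ext i
    fin_cases i
    · show (1 - (x 0 + x 1 + x 2)) * (0 : E3) 0 + x 0 * e1 0 + x 1 * e2 0 + x 2 * e3 0 = x 0
      rw [a1, b1, c1]
      simp
    · show (1 - (x 0 + x 1 + x 2)) * (0 : E3) 1 + x 0 * e1 1 + x 1 * e2 1 + x 2 * e3 1 = x 1
      rw [a2, b2, c2]
      simp
    · show (1 - (x 0 + x 1 + x 2)) * (0 : E3) 2 + x 0 * e1 2 + x 1 * e2 2 + x 2 * e3 2 = x 2
      rw [a3, b3, c3]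
      simp
  rw [hx] at h'
  exact h'

theorem sxm_pos : 0 < volume.real sx := by
  have hc : IsCompact sx := Set.Finite.isCompact_convexHull ℝ (Set.toFinite _)
  have hU : IsOpen {x : E3 | 0 < x 0 ∧ 0 < x 1 ∧ 0 < x 2 ∧ x 0 + x 1 + x 2 < 1} := by
    have c0 : Continuous (fun x : E3 => x 0) := by fun_prop
    have c1 : Continuous (fun x : E3 => x 1) := by fun_prop
    have c2 : Continuous (fun x : E3 => x 2) := by fun_prop
    exact (isOpen_lt continuous_const c0).inter ((isOpen_lt continuous_const c1).inter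
      ((isOpen_lt continuous_const c2).inter (isOpen_lt ((c0.add c1).add c2) continuous_const)))
  have hne : ({x : E3 | 0 < x 0 ∧ 0 < x 1 ∧ 0 < x 2 ∧ x 0 + x 1 + x 2 < 1}).Nonempty := by
    refine ⟨!₂[1 / 4, 1 / 4, 1 / 4], ?_⟩
    show 0 < (1 / 4 : ℝ) ∧ 0 < (1 / 4 : ℝ) ∧ 0 < (1 / 4 : ℝ) ∧
      (1 / 4 : ℝ) + 1 / 4 + 1 / 4 < 1
    norm_num
  have h1 := hU.measure_pos volume hne
  have h2 : {x : E3 | 0 < x 0 ∧ 0 < x 1 ∧ 0 < x 2 ∧ x 0 + x 1 + x 2 < 1} ⊆ sx := by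
    intro x hx
    exact sxm_mem x hx.1.le hx.2.1.le hx.2.2.1.le hx.2.2.2.le
  exact ENNReal.toReal_pos (h1.trans_le (measure_mono h2)).ne' hc.measure_lt_top.ne

theorem sx_moments : 0 < volume.real sx ∧ (∫ u in sx, u 0) = volume.real sx / 4 ∧
    (∫ u in sx, u 1) = volume.real sx / 4 ∧ (∫ u in sx, u 2) = volume.real sx / 4 := by
  obtain ⟨a1, a2, a3, b1, b2, b3, c1, c2, c3⟩ := sxm_e
  have k0 := (cv 0 e1 e2 e3).2
  have k1 := (cv e1 0 e2 e3).2
  have k2 := (cv 0 e2 e1 e3).2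
  have k3 := (cv 0 e1 e3 e2).2
  have s1 : ({e1, 0, e2, e3} : Set E3) = {0, e1, e2, e3} := Set.insert_comm _ _ _
  have s2 : ({0, e2, e1, e3} : Set E3) = {0, e1, e2, e3} := by
    rw [Set.insert_comm e2 e1]
  have s3 : ({0, e1, e3, e2} : Set E3) = {0, e1, e2, e3} := by
    rw [Set.pair_comm e3 e2]
  rw [s1] at k1
  rw [s2] at k2
  rw [s3] at k3
  have z0 : ∀ i, (0 : E3) i = 0 := fun i => rfl
  have d0 : |dt (e1 - 0) (e2 - 0) (e3 - 0)| = 1 := by
    unfold dt
    simp only [PiLp.sub_apply, a1, a2, a3, b1, b2, b3, c1, c2, c3, z0]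
    norm_num
  have d1 : |dt (0 - e1) (e2 - e1) (e3 - e1)| = 1 := by
    unfold dt
    simp only [PiLp.sub_apply, a1, a2, a3, b1, b2, b3, c1, c2, c3, z0]
    norm_num
  have d2 : |dt (e2 - 0) (e1 - 0) (e3 - 0)| = 1 := by
    unfold dt
    simp only [PiLp.sub_apply, a1, a2, a3, b1, b2, b3, c1, c2, c3, z0]
    norm_num
  have d3 : |dt (e1 - 0) (e3 - 0) (e2 - 0)| = 1 := by
    unfold dt
    simp only [PiLp.sub_apply, a1, a2, a3, b1, b2, b3, c1, c2, c3, z0]
    norm_num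
  rw [d0, one_smul] at k0
  rw [d1, one_smul] at k1
  rw [d2, one_smul] at k2
  rw [d3, one_smul] at k3
  obtain ⟨V, hV⟩ : ∃ V, V = volume.real sx := ⟨_, rfl⟩
  obtain ⟨m0, h0⟩ : ∃ m, m = ∫ u in sx, u 0 := ⟨_, rfl⟩
  obtain ⟨m1, h1⟩ : ∃ m, m = ∫ u in sx, u 1 := ⟨_, rfl⟩
  obtain ⟨m2, h2⟩ : ∃ m, m = ∫ u in sx, u 2 := ⟨_, rfl⟩
  rw [← hV, ← h0, ← h1, ← h2] at k0 k1 k2 k3
  have q1 := congrArg (fun v : E3 => v 0) (k0.symm.trans k1)
  have q2 := congrArg (fun v : E3 => v 0) (k0.symm.trans k2)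
  have q3 := congrArg (fun v : E3 => v 1) (k0.symm.trans k3)
  simp only [PiLp.add_apply, PiLp.sub_apply, PiLp.smul_apply, smul_eq_mul, a1, a2, a3, b1, b2,
    b3, c1, c2, c3, z0] at q1 q2 q3
  rw [← hV, ← h0, ← h1, ← h2]
  refine ⟨by rw [hV]; exact sxm_pos, ?_, ?_, ?_⟩ <;> linarith

theorem tetra (v0 v1 v2 v3 : E3) :
    volume.real (convexHull ℝ {v0, v1, v2, v3}) =
      |dt (v1 - v0) (v2 - v0) (v3 - v0)| * volume.real sx ∧
    ∫ x in convexHull ℝ {v0, v1, v2, v3}, x =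
      (|dt (v1 - v0) (v2 - v0) (v3 - v0)| * volume.real sx / 4) • (v0 + v1 + v2 + v3) := by
  obtain ⟨h1, h2⟩ := cv v0 v1 v2 v3
  obtain ⟨_, m0, m1, m2⟩ := sx_moments
  refine ⟨h1, ?_⟩
  rw [h2, m0, m1, m2]
  module

theorem ds_W4 (x0 x1 x2 x3 : E3) (c0 c1 c2 c3 : ℝ) (h0 : 0 ≤ c0) (h1 : 0 ≤ c1) (h2 : 0 ≤ c2)
    (h3 : 0 ≤ c3) (hs : c0 + c1 + c2 + c3 = 1) :
    c0 • x0 + c1 • x1 + c2 • x2 + c3 • x3 ∈ convexHull ℝ ({x0, x1, x2, x3} : Set E3) := by
  have h := (convex_convexHull ℝ ({x0, x1, x2, x3} : Set E3)).sum_mem (t := Finset.univ)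
    (w := ![c0, c1, c2, c3]) (z := ![x0, x1, x2, x3])
    (by
      intro i _
      fin_cases i
      · exact h0
      · exact h1
      · exact h2
      · exact h3)
    (by simp [Fin.sum_univ_four]; linarith)
    (by
      intro i _
      apply subset_convexHull
      fin_cases i <;> simp)
  rw [Fin.sum_univ_four] at h
  exact h

theorem ds_W5 (x0 x1 x2 x3 x4 : E3) (x : E3) (hx : x ∈ convexHull ℝ ({x0, x1, x2, x3, x4} : Set E3)) :
    ∃ c0 c1 c2 c3 c4 : ℝ, 0 ≤ c0 ∧ 0 ≤ c1 ∧ 0 ≤ c2 ∧ 0 ≤ c3 ∧ 0 ≤ c4 ∧ c0 + c1 + c2 + c3 + c4 = 1 ∧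
      x = c0 • x0 + c1 • x1 + c2 • x2 + c3 • x3 + c4 • x4 := by
  have hsub : convexHull ℝ ({x0, x1, x2, x3, x4} : Set E3) ⊆ {x | ∃ c0 c1 c2 c3 c4 : ℝ, 0 ≤ c0 ∧
      0 ≤ c1 ∧ 0 ≤ c2 ∧ 0 ≤ c3 ∧ 0 ≤ c4 ∧ c0 + c1 + c2 + c3 + c4 = 1 ∧
      x = c0 • x0 + c1 • x1 + c2 • x2 + c3 • x3 + c4 • x4} := by
    apply convexHull_min
    · intro y hy
      simp only [Set.mem_insert_iff, Set.mem_singleton_iff] at hy
      rcases hy with rfl | rfl | rfl | rfl | rfl
      · exact ⟨1, 0, 0, 0, 0, by simp⟩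
      · exact ⟨0, 1, 0, 0, 0, by simp⟩
      · exact ⟨0, 0, 1, 0, 0, by simp⟩
      · exact ⟨0, 0, 0, 1, 0, by simp⟩
      · exact ⟨0, 0, 0, 0, 1, by simp⟩
    · rintro y ⟨c0, c1, c2, c3, c4, h0, h1, h2, h3, h4, h5, rfl⟩ z
        ⟨d0, d1, d2, d3, d4, k0, k1, k2, k3, k4, k5, rfl⟩ s t hs ht hst
      refine ⟨s * c0 + t * d0, s * c1 + t * d1, s * c2 + t * d2, s * c3 + t * d3, s * c4 + t * d4,
        by positivity, by positivity, by positivity, by positivity, by positivity, ?_, ?_⟩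
      · linear_combination s * h5 + t * k5 + hst
      · module
  exact hsub hx

theorem ds_main (a b1 b2 b3 b4 : E3) (α1 α2 α3 α4 : ℝ) (p1 : 0 < α1) (p2 : 0 < α2) (p3 : 0 < α3)
    (p4 : 0 < α4) (s13 : α1 + α3 = 1) (s24 : α2 + α4 = 1)
    (hx : α1 • b1 + α3 • b3 = α2 • b2 + α4 • b4) (c0 c1 c2 c3 c4 : ℝ) (h0 : 0 ≤ c0) (h1 : 0 ≤ c1)
    (h2 : 0 ≤ c2) (h3 : 0 ≤ c3) (h4 : 0 ≤ c4) (hs : c0 + c1 + c2 + c3 + c4 = 1)
    (hle : c2 / α2 ≤ c4 / α4) :
    c0 • a + c1 • b1 + c2 • b2 + c3 • b3 + c4 • b4 ∈ convexHull ℝ ({a, b1, b3, b4} : Set E3) := by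
  obtain ⟨θ, hθ⟩ : ∃ θ, θ = c2 / α2 := ⟨_, rfl⟩
  have hθ0 : 0 ≤ θ := by rw [hθ]; positivity
  have e2 : c2 = θ * α2 := by rw [hθ]; field_simp
  have e4 : θ * α4 ≤ c4 := by
    rw [← hθ, le_div_iff₀ p4] at hle
    exact hle
  have := ds_W4 a b1 b3 b4 c0 (c1 + θ * α1) (c3 + θ * α3) (c4 - θ * α4) h0 (by positivity)
    (by positivity) (by linarith) (by
      rw [e2] at hs
      linear_combination hs + θ * s13 - θ * s24)
  convert this using 1
  rw [e2]
  linear_combination (norm := module) (-θ) • hx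

theorem dissect (a b1 b2 b3 b4 : E3) (α1 α2 α3 α4 : ℝ) (p1 : 0 < α1) (p2 : 0 < α2) (p3 : 0 < α3)
    (p4 : 0 < α4) (s13 : α1 + α3 = 1) (s24 : α2 + α4 = 1)
    (hx : α1 • b1 + α3 • b3 = α2 • b2 + α4 • b4) :
    convexHull ℝ {a, b1, b2, b3, b4} =
      convexHull ℝ {a, b1, b3, b2} ∪ convexHull ℝ {a, b1, b3, b4} := by
  apply Set.Subset.antisymm
  · intro x hxx
    obtain ⟨c0, c1, c2, c3, c4, h0, h1, h2, h3, h4, hs, rfl⟩ := ds_W5 a b1 b2 b3 b4 x hxx
    rcases le_total (c2 / α2) (c4 / α4) with hle | hle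
    · right
      exact ds_main a b1 b2 b3 b4 α1 α2 α3 α4 p1 p2 p3 p4 s13 s24 hx c0 c1 c2 c3 c4 h0 h1 h2 h3 h4 hs hle
    · left
      have := ds_main a b1 b4 b3 b2 α1 α4 α3 α2 p1 p4 p3 p2 s13 (by linarith)
        (by rw [hx, add_comm]) c0 c1 c4 c3 c2 h0 h1 h4 h3 h2 (by linarith) hle
      convert this using 1
      module
  · apply Set.union_subset
    · apply convexHull_mono
      intro y hy
      simp only [Set.mem_insert_iff, Set.mem_singleton_iff] at hy ⊢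
      tauto
    · apply convexHull_mono
      intro y hy
      simp only [Set.mem_insert_iff, Set.mem_singleton_iff] at hy ⊢
      tauto

/-- the determinant as a linear functional of the last vector -/
noncomputable def dtl352 (u v : E3) : E3 →ₗ[ℝ] ℝ where
  toFun w := dt u v w
  map_add' x y := by
    simp only [dt, PiLp.add_apply]
    ring
  map_smul' c x := by
    simp only [dt, PiLp.smul_apply, smul_eq_mul, RingHom.id_apply]
    ring

theorem dtl352_apply (u v w : E3) : dtl352 u v w = dt u v w := rfl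

theorem dt_left352 (u v : E3) : dt u v u = 0 := by
  simp only [dt]
  ring

theorem dt_right352 (u v : E3) : dt u v v = 0 := by
  simp only [dt]
  ring

theorem overlap (a b1 b2 b3 b4 : E3) (α1 α2 α3 α4 : ℝ) (p1 : 0 < α1) (p2 : 0 < α2) (p3 : 0 < α3)
    (p4 : 0 < α4) (s13 : α1 + α3 = 1) (s24 : α2 + α4 = 1)
    (hx : α1 • b1 + α3 • b3 = α2 • b2 + α4 • b4)
    (hd : dt (b1 - a) (b3 - a) (b2 - a) ≠ 0) :
    volume (convexHull ℝ {a, b1, b3, b2} ∩ convexHull ℝ {a, b1, b3, b4}) = 0 := by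
  set l := dtl352 (b1 - a) (b3 - a) with hl
  set D : ℝ := l (b2 - a) with hD
  have hD0 : D ≠ 0 := hd
  have h1 : l b1 = l a := by
    have : l (b1 - a) = 0 := dt_left352 _ _
    rw [map_sub] at this
    linarith
  have h3 : l b3 = l a := by
    have : l (b3 - a) = 0 := dt_right352 _ _
    rw [map_sub] at this
    linarith
  have hD' : D = l b2 - l a := by rw [hD, map_sub]
  have h4 : α4 * (l b4 - l a) = -(α2 * D) := by
    have h := congrArg l hx
    rw [map_add, map_add, map_smul, map_smul, map_smul, map_smul, smul_eq_mul, smul_eq_mul,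
      smul_eq_mul, smul_eq_mul, h1, h3] at h
    rw [hD']
    have e1 : α1 * l a + α3 * l a = l a := by rw [← add_mul, s13, one_mul]
    have e2 : α2 * l a + α4 * l a = l a := by rw [← add_mul, s24, one_mul]
    linarith
  have h4' : D * (l b4 - l a) ≤ 0 := by
    have e : α4 * (D * (l b4 - l a)) = -(α2 * D ^ 2) := by
      calc α4 * (D * (l b4 - l a)) = D * (α4 * (l b4 - l a)) := by ring
        _ = _ := by rw [h4]; ring
    have e2 : 0 ≤ α2 * D ^ 2 := by positivity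
    by_contra hcon
    push Not at hcon
    have := mul_pos p4 hcon
    linarith
  have hlin : IsLinearMap ℝ (fun x => D * l x) :=
    ⟨fun x y => by rw [map_add]; ring, fun c x => by rw [map_smul, smul_eq_mul, smul_eq_mul]; ring⟩
  have hc1 : convexHull ℝ {a, b1, b3, b2} ⊆ {x : E3 | D * l a ≤ D * l x} := by
    refine convexHull_min ?_ (convex_halfSpace_ge hlin _)
    rintro x (rfl | rfl | rfl | hx2)
    · exact le_refl (D * l x)
    · show D * l a ≤ D * l x
      rw [h1]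
    · show D * l a ≤ D * l x
      rw [h3]
    · have hx3 : x = b2 := hx2
      rw [hx3]
      show D * l a ≤ D * l b2
      have : D * (l b2 - l a) = D ^ 2 := by rw [← hD']; ring
      nlinarith [sq_nonneg D]
  have hc2 : convexHull ℝ {a, b1, b3, b4} ⊆ {x : E3 | D * l x ≤ D * l a} := by
    refine convexHull_min ?_ (convex_halfSpace_le hlin _)
    rintro x (rfl | rfl | rfl | hx2)
    · exact le_refl (D * l x)
    · show D * l x ≤ D * l a
      rw [h1]
    · show D * l x ≤ D * l a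
      rw [h3]
    · have hx3 : x = b4 := hx2
      rw [hx3]
      show D * l b4 ≤ D * l a
      linarith [h4']
  set s : AffineSubspace ℝ E3 := AffineSubspace.mk' a (LinearMap.ker l) with hs
  have hsub : convexHull ℝ {a, b1, b3, b2} ∩ convexHull ℝ {a, b1, b3, b4} ⊆ (s : Set E3) := by
    rintro x ⟨hx1, hx2⟩
    have k1 : D * l a ≤ D * l x := hc1 hx1
    have k2 : D * l x ≤ D * l a := hc2 hx2
    have k3 : l x = l a := mul_left_cancel₀ hD0 (le_antisymm k2 k1)
    show x ∈ s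
    rw [hs, AffineSubspace.mem_mk', LinearMap.mem_ker, vsub_eq_sub, map_sub, k3, sub_self]
  have htop : s ≠ ⊤ := by
    intro h
    have hb : b2 ∈ s := by rw [h]; exact AffineSubspace.mem_top ℝ E3 b2
    rw [hs, AffineSubspace.mem_mk', LinearMap.mem_ker, vsub_eq_sub] at hb
    exact hD0 hb
  exact measure_mono_null hsub (Measure.addHaar_affineSubspace volume s htop)

theorem pi_cpt (s : Set E3) (hs : s.Finite) : IsCompact (convexHull ℝ s) :=
  hs.isCompact_convexHull ℝ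

theorem pi_fin4 (a b c d : E3) : ({a, b, c, d} : Set E3).Finite := by
  exact Set.toFinite _

theorem pi_coord {b1 b2 b3 b4 : E3} {α1 α2 α3 α4 : ℝ}
    (hx : α1 • b1 + α3 • b3 = α2 • b2 + α4 • b4) (i : Fin 3) :
    α1 * b1 i + α3 * b3 i = α2 * b2 i + α4 * b4 i := by
  have h := congrArg (fun v : E3 => v i) hx
  simpa using h

theorem pi_dt (a b1 b2 b3 b4 : E3) (α1 α2 α3 α4 : ℝ)
    (s13 : α1 + α3 = 1) (s24 : α2 + α4 = 1)
    (hx : α1 • b1 + α3 • b3 = α2 • b2 + α4 • b4) :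
    α4 * dt (b1 - a) (b3 - a) (b4 - a) = -(α2 * dt (b1 - a) (b3 - a) (b2 - a)) := by
  have h : ∀ i : Fin 3, α2 * (b2 i - a i) + α4 * (b4 i - a i) =
      α1 * (b1 i - a i) + α3 * (b3 i - a i) := by
    intro i
    have := pi_coord hx i
    linear_combination -this + (s13 - s24) * a i
  have h0 := h 0
  have h1 := h 1
  have h2 := h 2
  have e : ∀ u v : E3, ∀ i : Fin 3, (u - v) i = u i - v i := fun u v i => rfl
  unfold dt
  simp only [e]
  linear_combination ((b1 1 - a 1) * (b3 2 - a 2) - (b1 2 - a 2) * (b3 1 - a 1)) * h0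
    + ((b1 2 - a 2) * (b3 0 - a 0) - (b1 0 - a 0) * (b3 2 - a 2)) * h1
    + ((b1 0 - a 0) * (b3 1 - a 1) - (b1 1 - a 1) * (b3 0 - a 0)) * h2

theorem pyramid_integral (a b1 b2 b3 b4 : E3) (α1 α2 α3 α4 : ℝ) (p1 : 0 < α1) (p2 : 0 < α2)
    (p3 : 0 < α3) (p4 : 0 < α4) (s13 : α1 + α3 = 1) (s24 : α2 + α4 = 1)
    (hx : α1 • b1 + α3 • b3 = α2 • b2 + α4 • b4)
    (hi : (interior (convexHull ℝ {a, b1, b2, b3, b4})).Nonempty)
    (h0 : ∫ x in convexHull ℝ {a, b1, b2, b3, b4}, x = 0) :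
    a + b1 + b2 + b3 + b4 - (α1 • b1 + α3 • b3) = 0 := by
  have hdis := dissect a b1 b2 b3 b4 α1 α2 α3 α4 p1 p2 p3 p4 s13 s24 hx
  have hD := pi_dt a b1 b2 b3 b4 α1 α2 α3 α4 s13 s24 hx
  obtain ⟨v1, i1⟩ := tetra a b1 b3 b2
  obtain ⟨v2, i2⟩ := tetra a b1 b3 b4
  have c1 : IsCompact (convexHull ℝ {a, b1, b3, b2}) := pi_cpt _ (pi_fin4 _ _ _ _)
  have c2 : IsCompact (convexHull ℝ {a, b1, b3, b4}) := pi_cpt _ (pi_fin4 _ _ _ _)
  generalize hDd : dt (b1 - a) (b3 - a) (b2 - a) = D at *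
  generalize hDd' : dt (b1 - a) (b3 - a) (b4 - a) = D' at *
  generalize hVV : volume.real sx = V at *
  have hDa : α4 * |D'| = α2 * |D| := by
    have h1 : |α4 * D'| = |α2 * D| := by rw [hD, abs_neg]
    rwa [abs_mul, abs_mul, abs_of_pos p4, abs_of_pos p2] at h1
  have hne : |D| * V ≠ 0 := by
    intro h
    have h' : |D'| * V = 0 := by
      have : α4 * (|D'| * V) = 0 := by
        rw [← mul_assoc, hDa, mul_assoc, h, mul_zero]
      rcases mul_eq_zero.1 this with h1 | h1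
      · exact absurd h1 p4.ne'
      · exact h1
    have z1 : volume (convexHull ℝ {a, b1, b3, b2}) = 0 := by
      rw [h] at v1
      exact (measureReal_eq_zero_iff c1.measure_lt_top.ne).1 v1
    have z2 : volume (convexHull ℝ {a, b1, b3, b4}) = 0 := by
      rw [h'] at v2
      exact (measureReal_eq_zero_iff c2.measure_lt_top.ne).1 v2
    have z : volume (convexHull ℝ {a, b1, b2, b3, b4}) = 0 := by
      rw [hdis]
      exact measure_union_null z1 z2
    have hp := isOpen_interior.measure_pos (volume : Measure E3) hi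
    have := measure_mono_null interior_subset z
    rw [this] at hp
    exact lt_irrefl _ hp
  have hDne : D ≠ 0 := by
    rintro rfl
    simp at hne
  have hov := overlap a b1 b2 b3 b4 α1 α2 α3 α4 p1 p2 p3 p4 s13 s24 hx (by rw [hDd]; exact hDne)
  have hint : ∀ s : Set E3, IsCompact s → IntegrableOn (fun x : E3 => x) s volume :=
    fun s hs => continuousOn_id.integrableOn_compact hs
  have hu := setIntegral_union₀ (μ := (volume : Measure E3)) (f := fun x : E3 => x)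
    (s := convexHull ℝ {a, b1, b3, b2}) (t := convexHull ℝ {a, b1, b3, b4}) hov
    c2.isClosed.measurableSet.nullMeasurableSet (hint _ c1) (hint _ c2)
  rw [hdis] at h0
  rw [h0, i1, i2] at hu
  have hfin : ∀ i : Fin 3, α4 * (a i + b1 i + b3 i + b2 i) + α2 * (a i + b1 i + b3 i + b4 i) = 0 := by
    intro i
    have h1 := congrArg (fun v : E3 => v i) hu
    have h2 : (0:ℝ) = |D| * V / 4 * (a i + b1 i + b3 i + b2 i) +
        |D'| * V / 4 * (a i + b1 i + b3 i + b4 i) := by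
      have h1' := h1
      simp only [PiLp.add_apply, PiLp.smul_apply, PiLp.zero_apply, smul_eq_mul] at h1'
      linear_combination h1'
    have h3 : |D| * V * (α4 * (a i + b1 i + b3 i + b2 i) + α2 * (a i + b1 i + b3 i + b4 i)) = 0 := by
      linear_combination (-4 * α4) * h2 - V * (a i + b1 i + b3 i + b4 i) * hDa
    rcases mul_eq_zero.1 h3 with h4 | h4
    · exact absurd h4 hne
    · exact h4
  ext i
  have h1 := hfin i
  have h2 := pi_coord hx i
  have e : (a + b1 + b2 + b3 + b4 - (α1 • b1 + α3 • b3)) i =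
      a i + b1 i + b2 i + b3 i + b4 i - (α1 * b1 i + α3 * b3 i) := by simp
  rw [e]
  show _ = (0:ℝ)
  linear_combination h1 - h2 - (a i + b1 i + b3 i + b2 i + b4 i) * s24

theorem face_fun (P A : Set E3) (hP : IsCompact P) (hc : Convex ℝ P) (hA : IsFaceSet P A)
    (hne : P.Nonempty) :
    (∃ (l : E3 →L[ℝ] ℝ) (M : ℝ), (∀ u ∈ A, l u = M) ∧ ∀ u ∈ P.extremePoints ℝ, u ∉ A → l u < M) ∧
    ∀ v w : E3, A = {v, w} → IsExposed ℝ P (segment ℝ v w) := by
  obtain ⟨F, hF, hFne, rfl⟩ := hA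
  obtain ⟨l, hl⟩ := hF hFne
  obtain ⟨x0, hx0⟩ := hFne
  have h2 : x0 ∈ {x ∈ P | ∀ y ∈ P, l y ≤ l x} := hl ▸ hx0
  refine ⟨⟨l, l x0, ?_, ?_⟩, ?_⟩
  · rintro u ⟨huF, -⟩
    have h1 : u ∈ {x ∈ P | ∀ y ∈ P, l y ≤ l x} := hl ▸ huF
    exact le_antisymm (h2.2 u h1.1) (h1.2 x0 h2.1)
  · intro u hu hnu
    refine lt_of_le_of_ne (h2.2 u hu.1) fun h => hnu ⟨?_, hu⟩
    rw [hl]
    exact ⟨hu.1, fun y hy => by rw [h]; exact h2.2 y hy⟩
  · intro v w hvw
    have hFc : IsCompact F := hF.isCompact hP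
    have hFconv : Convex ℝ F := hF.convex hc
    have hext : F.extremePoints ℝ = F ∩ P.extremePoints ℝ := hF.isExtreme.extremePoints_eq
    have hKM := closure_convexHull_extremePoints hFc hFconv
    have hcl : IsClosed (convexHull ℝ ({v, w} : Set E3)) := (Set.toFinite ({v, w} : Set E3)).isClosed_convexHull ℝ
    rw [hext, hvw, hcl.closure_eq,
      convexHull_pair] at hKM
    rw [hKM]
    exact hF

theorem pyr_aux (S : Set E3) (p : E3) (hp : p ∈ S)
    (h : ∀ q ∈ S, q ≠ p → inner ℝ p q < inner ℝ p p) :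
    p ∈ (convexHull ℝ S).extremePoints ℝ := by
  have hconv : Convex ℝ {x : E3 | inner ℝ p x < inner ℝ p p ∨ x = p} := by
    intro x hx y hy a b ha hb hab
    have hle : ∀ z : E3, z ∈ {x : E3 | inner ℝ p x < inner ℝ p p ∨ x = p} →
        inner ℝ p z ≤ inner ℝ p p := by
      intro z hz
      rcases hz with hz | hz
      · exact hz.le
      · rw [hz]
    show inner ℝ p (a • x + b • y) < inner ℝ p p ∨ a • x + b • y = p
    rcases hx with hx | hx
    · rcases eq_or_lt_of_le ha with h0 | h0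
      · have hb1 : b = 1 := by linarith
        rw [← h0, hb1, zero_smul, zero_add, one_smul]
        exact hy
      · left
        rw [inner_add_right, inner_smul_right, inner_smul_right]
        have hy' := hle y hy
        have h1 : a * inner ℝ p x < a * inner ℝ p p := mul_lt_mul_of_pos_left hx h0
        have h2 : b * inner ℝ p y ≤ b * inner ℝ p p := mul_le_mul_of_nonneg_left hy' hb
        have h3 : a * inner ℝ p p + b * inner ℝ p p = inner ℝ p p := by rw [← add_mul, hab, one_mul]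
        linarith
    · rcases hy with hy | hy
      · rcases eq_or_lt_of_le hb with h0 | h0
        · have ha1 : a = 1 := by linarith
          right
          rw [← h0, ha1, zero_smul, add_zero, one_smul, hx]
        · left
          rw [inner_add_right, inner_smul_right, inner_smul_right, hx]
          have h2 : b * inner ℝ p y < b * inner ℝ p p := mul_lt_mul_of_pos_left hy h0
          have h3 : a * inner ℝ p p + b * inner ℝ p p = inner ℝ p p := by
            rw [← add_mul, hab, one_mul]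
          linarith
      · right
        rw [hx, hy, ← add_smul, hab, one_smul]
  have hsub : convexHull ℝ S ⊆ {x : E3 | inner ℝ p x < inner ℝ p p ∨ x = p} := by
    refine convexHull_min ?_ hconv
    intro q hq
    by_cases hqp : q = p
    · exact Or.inr hqp
    · exact Or.inl (h q hq hqp)
  have hle : ∀ z ∈ convexHull ℝ S, inner ℝ p z ≤ inner ℝ p p := by
    intro z hz
    rcases hsub hz with hz | hz
    · exact hz.le
    · rw [hz]
  have key : ∀ x ∈ convexHull ℝ S, ∀ y ∈ convexHull ℝ S, p ∈ openSegment ℝ x y → x = p := by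
    intro x hx y hy hxy
    obtain ⟨a, b, ha, hb, hab, he⟩ := hxy
    rcases hsub hx with h1 | h1
    · exfalso
      have h2 := hle y hy
      have h3 : inner ℝ p p = a * inner ℝ p x + b * inner ℝ p y := by
        rw [← inner_smul_right, ← inner_smul_right, ← inner_add_right, he]
      have h4 : a * inner ℝ p x < a * inner ℝ p p := mul_lt_mul_of_pos_left h1 ha
      have h5 : b * inner ℝ p y ≤ b * inner ℝ p p := mul_le_mul_of_nonneg_left h2 hb.le
      have h6 : a * inner ℝ p p + b * inner ℝ p p = inner ℝ p p := by rw [← add_mul, hab, one_mul]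
      linarith
    · exact h1
  rw [mem_extremePoints]
  refine ⟨subset_convexHull ℝ S hp, ?_⟩
  intro x hx y hy hxy
  exact ⟨key x hx y hy hxy, key y hy x hx (by rwa [openSegment_symm])⟩

theorem pyr_r (r : ℝ) : -1 < r ^ 2 + 1 := by nlinarith [sq_nonneg r]

theorem pyr_ext : pyr.extremePoints ℝ = Set.range pt := by
  apply Subset.antisymm
  · exact extremePoints_convexHull_subset
  · rintro _ ⟨i, rfl⟩
    apply pyr_aux
    · exact ⟨i, rfl⟩
    · rintro _ ⟨j, rfl⟩ hne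
      have hij : j ≠ i := fun h => hne (by rw [h])
      clear hne
      fin_cases i <;> fin_cases j <;>
        first
          | exact absurd rfl hij
          | (simp [pt, PiLp.inner_apply, Fin.sum_univ_three]; try norm_num; try exact pyr_r _)

theorem pyr_face (s : Set (Fin 5)) (n : E3) (M : ℝ) (hs : s.Nonempty)
    (h1 : ∀ i ∈ s, inner ℝ n (pt i) = M) (h2 : ∀ i, i ∉ s → inner ℝ n (pt i) < M) :
    IsFaceSet pyr (pt '' s) := by
  obtain ⟨i0, hi0⟩ := hs
  have hmem : ∀ i, pt i ∈ pyr := fun i => subset_convexHull ℝ _ ⟨i, rfl⟩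
  have hle : ∀ y ∈ pyr, inner ℝ n y ≤ M := by
    intro y hy
    have hsub : pyr ⊆ {x : E3 | innerSL ℝ n x ≤ M} := by
      apply convexHull_min
      · rintro _ ⟨i, rfl⟩
        by_cases hi : i ∈ s
        · exact (h1 i hi).le
        · exact (h2 i hi).le
      · exact convex_halfSpace_le (innerSL ℝ n).isLinear M
    exact hsub hy
  refine ⟨{x ∈ pyr | ∀ y ∈ pyr, innerSL ℝ n y ≤ innerSL ℝ n x}, fun _ => ⟨innerSL ℝ n, rfl⟩,
    ⟨pt i0, hmem i0, fun y hy => ?_⟩, ?_⟩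
  · rw [innerSL_apply_apply, innerSL_apply_apply, h1 i0 hi0]
    exact hle y hy
  · rw [pyr_ext]
    ext x
    constructor
    · rintro ⟨i, hi, rfl⟩
      refine ⟨⟨hmem i, fun y hy => ?_⟩, ⟨i, rfl⟩⟩
      rw [innerSL_apply_apply, innerSL_apply_apply, h1 i hi]
      exact hle y hy
    · rintro ⟨⟨_, hx⟩, ⟨i, rfl⟩⟩
      refine ⟨i, ?_, rfl⟩
      by_contra hi
      have h3 := hx (pt i0) (hmem i0)
      rw [innerSL_apply_apply, innerSL_apply_apply, h1 i0 hi0] at h3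
      exact absurd (h2 i hi) (not_lt.2 h3)

theorem pyr_poly_mem (x : E3) (h0 : |x 0| < 1 / 10) (h1 : |x 1| < 1 / 10)
    (h2 : |x 2 - 1 / 4| < 1 / 10) : x ∈ pyr := by
  rw [abs_lt] at h0 h1 h2
  obtain ⟨r, hr⟩ : ∃ r, r = 1 - x 2 := ⟨_, rfl⟩
  have hrpos : 0 < r := by rw [hr]; linarith [h2.2]
  have hr1 : 1 / 2 < r := by rw [hr]; linarith [h2.2]
  have hx2 : x 2 = 1 - r := by rw [hr]; ring
  obtain ⟨w, hw⟩ : ∃ w : Fin 5 → ℝ, w = ![1 - r, (r + x 0) * (r + x 1) / (4 * r),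
      (r - x 0) * (r + x 1) / (4 * r), (r - x 0) * (r - x 1) / (4 * r),
      (r + x 0) * (r - x 1) / (4 * r)] := ⟨_, rfl⟩
  have ha : 0 ≤ r + x 0 := by linarith [h0.1]
  have hb : 0 ≤ r - x 0 := by linarith [h0.2]
  have hc : 0 ≤ r + x 1 := by linarith [h1.1]
  have hd : 0 ≤ r - x 1 := by linarith [h1.2]
  have he : 0 ≤ 1 - r := by rw [← hx2]; linarith [h2.1]
  have hw0 : ∀ i, 0 ≤ w i := by
    intro i
    rw [hw]
    fin_cases i
    · exact he
    · exact div_nonneg (mul_nonneg ha hc) (by positivity)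
    · exact div_nonneg (mul_nonneg hb hc) (by positivity)
    · exact div_nonneg (mul_nonneg hb hd) (by positivity)
    · exact div_nonneg (mul_nonneg ha hd) (by positivity)
  have hw1 : ∑ i, w i = 1 := by
    rw [hw, Fin.sum_univ_five]
    simp only [Matrix.cons_val]
    field_simp
    ring
  have hmem : ∑ i, w i • pt i ∈ pyr :=
    (convex_convexHull ℝ (Set.range pt)).sum_mem (fun i _ => hw0 i) hw1
      (fun i _ => subset_convexHull ℝ _ ⟨i, rfl⟩)
  have heq : ∑ i, w i • pt i = x := by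
    rw [hw, Fin.sum_univ_five]
    ext j
    fin_cases j
    · simp [pt]
      field_simp
      ring
    · simp [pt]
      field_simp
      ring
    · simp [pt]
      exact hx2.symm
  rw [← heq]
  exact hmem

theorem pyr_poly : IsPolyhedron pyr := by
  classical
  refine ⟨⟨Finset.univ.image pt, ?_⟩, ?_⟩
  · rw [Finset.coe_image, Finset.coe_univ, Set.image_univ]
    rfl
  · have hopen : IsOpen {x : E3 | |x 0| < 1 / 10 ∧ |x 1| < 1 / 10 ∧ |x 2 - 1 / 4| < 1 / 10} := by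
      have c0 : Continuous (fun x : E3 => |x 0|) := by fun_prop
      have c1 : Continuous (fun x : E3 => |x 1|) := by fun_prop
      have c2 : Continuous (fun x : E3 => |x 2 - 1 / 4|) := by fun_prop
      exact (isOpen_lt c0 continuous_const).inter
        ((isOpen_lt c1 continuous_const).inter (isOpen_lt c2 continuous_const))
    have hsub : {x : E3 | |x 0| < 1 / 10 ∧ |x 1| < 1 / 10 ∧ |x 2 - 1 / 4| < 1 / 10} ⊆
        interior pyr := interior_maximal (fun x hx => pyr_poly_mem x hx.1 hx.2.1 hx.2.2) hopen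
    refine ⟨!₂[0, 0, 1 / 4], hsub ⟨?_, ?_, ?_⟩⟩
    · simp
    · simp
    · simp

theorem not_flat (s : Set E3) (n : E3) (c : ℝ) (hn : n ≠ 0) (h : ∀ x ∈ s, inner ℝ n x = c) :
    interior (convexHull ℝ s) = ∅ := by
  have hsub : convexHull ℝ s ⊆ {x : E3 | inner ℝ n x = c} := by
    refine convexHull_min (fun x hx => h x hx) ?_
    intro x hx y hy a b _ _ hab
    simp only [Set.mem_ofPred_eq] at hx hy ⊢
    rw [inner_add_right, inner_smul_right, inner_smul_right, hx, hy, ← add_mul, hab, one_mul]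
  rw [Set.eq_empty_iff_forall_notMem]
  intro x hx
  rw [mem_interior_iff_mem_nhds, Metric.mem_nhds_iff] at hx
  obtain ⟨ε, hε, hball⟩ := hx
  have hn0 : 0 < ‖n‖ := norm_pos_iff.2 hn
  have h1 := hsub (hball (Metric.mem_ball_self hε))
  have h2 : x + (ε / (2 * ‖n‖)) • n ∈ Metric.ball x ε := by
    rw [Metric.mem_ball, dist_eq_norm, add_sub_cancel_left, norm_smul, Real.norm_eq_abs,
      abs_of_pos (by positivity)]
    have : ε / (2 * ‖n‖) * ‖n‖ = ε / 2 := by field_simp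
    rw [this]
    linarith
  have h3 := hsub (hball h2)
  simp only [Set.mem_ofPred_eq] at h1 h3
  rw [inner_add_right, inner_smul_right, h1, real_inner_self_eq_norm_sq] at h3
  have h4 : 0 < ε / (2 * ‖n‖) * ‖n‖ ^ 2 := by positivity
  linarith

theorem hull_ext (P : Set E3) (hP : IsPolyhedron P) (hf : (P.extremePoints ℝ).Finite) :
    IsCompact P ∧ Convex ℝ P ∧ P = convexHull ℝ (P.extremePoints ℝ) := by
  obtain ⟨⟨S, hS⟩, _⟩ := hP
  have hc : IsCompact P := by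
    rw [hS]
    exact Set.Finite.isCompact_convexHull (𝕜 := ℝ) (Finset.finite_toSet S)
  have hconv : Convex ℝ P := by
    rw [hS]
    exact convex_convexHull ℝ _
  refine ⟨hc, hconv, ?_⟩
  have h1 := closure_convexHull_extremePoints hc hconv
  rw [(Set.Finite.isClosed_convexHull (𝕜 := ℝ) hf).closure_eq] at h1
  exact h1.symm



theorem pt_inj : Function.Injective pt := by
  intro i j h
  have h0 := congrArg (fun v : E3 => v 0) h
  have h1 := congrArg (fun v : E3 => v 1) h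
  have h2 := congrArg (fun v : E3 => v 2) h
  fin_cases i <;> fin_cases j <;> first | rfl | (exfalso; revert h0 h1 h2; norm_num [pt])

/-- the transfer of a face from the square pyramid to a polyhedron of the same type -/
theorem transfer (Q : Set E3) (f : E3 → E3)
    (hface : ∀ A : Set E3, A ⊆ pyr.extremePoints ℝ → (IsFaceSet pyr A ↔ IsFaceSet Q (f '' A)))
    (hext : Q.extremePoints ℝ = Set.range (f ∘ pt)) (hinj : Function.Injective (f ∘ pt))
    (hcomp : IsCompact Q) (hconv : Convex ℝ Q)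
    (s : Set (Fin 5)) (n : E3) (M : ℝ) (hs : s.Nonempty)
    (h1 : ∀ i ∈ s, inner ℝ n (pt i) = M) (h2 : ∀ i, i ∉ s → inner ℝ n (pt i) < M) :
    (∃ (l : E3 →L[ℝ] ℝ) (M : ℝ), (∀ i ∈ s, l ((f ∘ pt) i) = M) ∧
      ∀ i, i ∉ s → l ((f ∘ pt) i) < M) ∧
    ∀ i j, s = {i, j} → IsExposed ℝ Q (segment ℝ ((f ∘ pt) i) ((f ∘ pt) j)) := by
  have hF : IsFaceSet Q (f '' (pt '' s)) := by
    refine (hface _ ?_).1 (pyr_face s n M hs h1 h2)
    rw [pyr_ext]
    exact image_subset_range _ _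
  have hne : Q.Nonempty := by
    have : (f ∘ pt) 0 ∈ Q.extremePoints ℝ := by rw [hext]; exact ⟨0, rfl⟩
    exact ⟨_, this.1⟩
  obtain ⟨⟨l, M', hl1, hl2⟩, hseg⟩ := face_fun Q _ hcomp hconv hF hne
  refine ⟨⟨l, M', ?_, ?_⟩, ?_⟩
  · intro i hi
    exact hl1 _ ⟨pt i, ⟨i, hi, rfl⟩, rfl⟩
  · intro i hi
    refine hl2 _ (by rw [hext]; exact ⟨i, rfl⟩) ?_
    rintro ⟨_, ⟨j, hj, rfl⟩, hji⟩
    have : j = i := hinj hji
    exact hi (this ▸ hj)
  · intro i j hij
    refine hseg _ _ ?_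
    rw [hij]
    simp [image_insert_eq, image_singleton]

theorem tpos_base (a b1 b2 b3 b4 : E3)
    (h11 : inner ℝ b1 b1 = (1 : ℝ)) (ha1 : inner ℝ a b1 = (1 : ℝ)) (h12 : inner ℝ b1 b2 = (1 : ℝ))
    (h41 : inner ℝ b4 b1 = (1 : ℝ)) (α1 α2 α3 α4 : ℝ) (p3 : 0 < α3)
    (s13 : α1 + α3 = 1) (s24 : α2 + α4 = 1)
    (hx : α1 • b1 + α3 • b3 = α2 • b2 + α4 • b4) (s : Set E3) (hs : s ⊆ {a, b1, b2, b3, b4}) :
    interior (convexHull ℝ s) = ∅ := by
  have hn : b1 ≠ 0 := by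
    rintro rfl
    simp at h11
  refine not_flat s b1 1 hn ?_
  have h14 : inner ℝ b1 b4 = (1 : ℝ) := by rw [real_inner_comm]; exact h41
  have h13 : inner ℝ b1 b3 = (1 : ℝ) := by
    have := congrArg (fun v => inner ℝ b1 v) hx
    simp only [inner_add_right, inner_smul_right, h11, h12, h14] at this
    have h : α3 * inner ℝ b1 b3 = α3 * 1 := by linarith
    exact mul_left_cancel₀ p3.ne' h
  intro x hx'
  rcases hs hx' with rfl | rfl | rfl | rfl | rfl
  · rw [real_inner_comm]; exact ha1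
  · exact h11
  · exact h12
  · exact h13
  · exact h14

theorem sqrt_zero_norm (v : E3) (h1 : 1 ≤ ‖v‖) (h : Real.sqrt (‖v‖ ^ 2 - 1) = 0) :
    inner ℝ v v = (1 : ℝ) := by
  have h2 : ‖v‖ ^ 2 - 1 ≤ 0 := by
    by_contra hc
    push Not at hc
    exact absurd h (Real.sqrt_pos.2 hc).ne'
  rw [real_inner_self_eq_norm_sq]
  nlinarith

theorem norm_eq (v : E3) (h1 : 1 ≤ ‖v‖) : inner ℝ v v = 1 + Real.sqrt (‖v‖ ^ 2 - 1) ^ 2 := by
  rw [Real.sq_sqrt (by nlinarith), real_inner_self_eq_norm_sq]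
  ring

theorem main (Q : Set E3) (hQ : IsPolyhedron Q) (hT : SameType pyr Q) (hK : IsMidscribed Q) :
    cm3 Q ≠ 0 := by
  intro hcm
  obtain ⟨f, hbij, hface⟩ := hT
  have hext : Q.extremePoints ℝ = Set.range (f ∘ pt) := by
    rw [← hbij.image_eq, pyr_ext, ← Set.range_comp]
  have hinj : Function.Injective (f ∘ pt) := by
    intro i j hij
    refine pt_inj (hbij.injOn ?_ ?_ hij)
    · rw [pyr_ext]; exact ⟨i, rfl⟩
    · rw [pyr_ext]; exact ⟨j, rfl⟩
  have hfin : (Q.extremePoints ℝ).Finite := by rw [hext]; exact Set.finite_range _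
  obtain ⟨hcomp, hconv, hhull⟩ := hull_ext Q hQ hfin
  have tr := transfer Q f hface hext hinj hcomp hconv
  set g : Fin 5 → E3 := f ∘ pt with hg
  have hrange : Set.range g = {g 0, g 1, g 2, g 3, g 4} := by
    ext x
    simp only [mem_range, mem_insert_iff, mem_singleton_iff]
    constructor
    · rintro ⟨i, rfl⟩
      fin_cases i <;> simp
    · rintro (h | h | h | h | h) <;> exact ⟨_, h.symm⟩
  have hQh : Q = convexHull ℝ {g 0, g 1, g 2, g 3, g 4} := by
    rw [← hrange, ← hext]; exact hhull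
  have t01 := tr {0, 1} !₂[1, 1, 2] 2 ⟨0, by simp⟩
    (by intro i hi; fin_cases i <;> simp [pt, PiLp.inner_apply, Fin.sum_univ_three] at hi ⊢ <;> norm_num)
    (by intro i hi; fin_cases i <;> simp [pt, PiLp.inner_apply, Fin.sum_univ_three] at hi ⊢ <;> norm_num)
  have t02 := tr {0, 2} !₂[-1, 1, 2] 2 ⟨0, by simp⟩
    (by intro i hi; fin_cases i <;> simp [pt, PiLp.inner_apply, Fin.sum_univ_three] at hi ⊢ <;> norm_num)
    (by intro i hi; fin_cases i <;> simp [pt, PiLp.inner_apply, Fin.sum_univ_three] at hi ⊢ <;> norm_num)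
  have t03 := tr {0, 3} !₂[-1, -1, 2] 2 ⟨0, by simp⟩
    (by intro i hi; fin_cases i <;> simp [pt, PiLp.inner_apply, Fin.sum_univ_three] at hi ⊢ <;> norm_num)
    (by intro i hi; fin_cases i <;> simp [pt, PiLp.inner_apply, Fin.sum_univ_three] at hi ⊢ <;> norm_num)
  have t04 := tr {0, 4} !₂[1, -1, 2] 2 ⟨0, by simp⟩
    (by intro i hi; fin_cases i <;> simp [pt, PiLp.inner_apply, Fin.sum_univ_three] at hi ⊢ <;> norm_num)
    (by intro i hi; fin_cases i <;> simp [pt, PiLp.inner_apply, Fin.sum_univ_three] at hi ⊢ <;> norm_num)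
  have t12 := tr {1, 2} !₂[0, 1, 0] 1 ⟨1, by simp⟩
    (by intro i hi; fin_cases i <;> simp [pt, PiLp.inner_apply, Fin.sum_univ_three] at hi ⊢ <;> norm_num)
    (by intro i hi; fin_cases i <;> simp [pt, PiLp.inner_apply, Fin.sum_univ_three] at hi ⊢ <;> norm_num)
  have t23 := tr {2, 3} !₂[-1, 0, 0] 1 ⟨2, by simp⟩
    (by intro i hi; fin_cases i <;> simp [pt, PiLp.inner_apply, Fin.sum_univ_three] at hi ⊢ <;> norm_num)
    (by intro i hi; fin_cases i <;> simp [pt, PiLp.inner_apply, Fin.sum_univ_three] at hi ⊢ <;> norm_num)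
  have t34 := tr {3, 4} !₂[0, -1, 0] 1 ⟨3, by simp⟩
    (by intro i hi; fin_cases i <;> simp [pt, PiLp.inner_apply, Fin.sum_univ_three] at hi ⊢ <;> norm_num)
    (by intro i hi; fin_cases i <;> simp [pt, PiLp.inner_apply, Fin.sum_univ_three] at hi ⊢ <;> norm_num)
  have t41 := tr {4, 1} !₂[1, 0, 0] 1 ⟨4, by simp⟩
    (by intro i hi; fin_cases i <;> simp [pt, PiLp.inner_apply, Fin.sum_univ_three] at hi ⊢ <;> norm_num)
    (by intro i hi; fin_cases i <;> simp [pt, PiLp.inner_apply, Fin.sum_univ_three] at hi ⊢ <;> norm_num)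
  have tb := tr {1, 2, 3, 4} !₂[0, 0, -1] 0 ⟨1, by simp⟩
    (by intro i hi; fin_cases i <;> simp [pt, PiLp.inner_apply, Fin.sum_univ_three] at hi ⊢ <;> norm_num)
    (by intro i hi; fin_cases i <;> simp [pt, PiLp.inner_apply, Fin.sum_univ_three] at hi ⊢ <;> norm_num)
  -- edges
  have edge : ∀ i j : Fin 5, i ≠ j → IsExposed ℝ Q (segment ℝ (g i) (g j)) →
      1 ≤ ‖g i‖ ∧ 1 ≤ ‖g j‖ ∧ inner ℝ (g i) (g j) =
        1 - Real.sqrt (‖g i‖ ^ 2 - 1) * Real.sqrt (‖g j‖ ^ 2 - 1) := by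
    intro i j hij he
    obtain ⟨h1, h2⟩ := hK (g i) (g j) (fun h => hij (hinj h)) he
    exact edge_inner _ _ h1 h2
  have e01 := edge 0 1 (by decide) (t01.2 0 1 rfl)
  have e02 := edge 0 2 (by decide) (t02.2 0 2 rfl)
  have e03 := edge 0 3 (by decide) (t03.2 0 3 rfl)
  have e04 := edge 0 4 (by decide) (t04.2 0 4 rfl)
  have e12 := edge 1 2 (by decide) (t12.2 1 2 rfl)
  have e23 := edge 2 3 (by decide) (t23.2 2 3 rfl)
  have e34 := edge 3 4 (by decide) (t34.2 3 4 rfl)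
  have e41 := edge 4 1 (by decide) (t41.2 4 1 rfl)
  obtain ⟨l, M, hl1, hl2⟩ := tb.1
  obtain ⟨l12, M12, h12a, h12b⟩ := t12.1
  obtain ⟨l23, M23, h23a, h23b⟩ := t23.1
  obtain ⟨l34, M34, h34a, h34b⟩ := t34.1
  obtain ⟨l41, M41, h41a, h41b⟩ := t41.1
  have hl0 : l ≠ 0 := by
    rintro rfl
    have h1 := hl1 1 (by simp)
    have h2 := hl2 0 (by simp)
    simp at h1 h2
    linarith
  obtain ⟨α1, α2, α3, α4, p1, p2, p3, p4, s13, s24, hx⟩ := base_cross (g 1) (g 2) (g 3) (g 4)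
    l l12 l23 l34 l41 M M12 M23 M34 M41 hl0 (hl1 1 (by simp)) (hl1 2 (by simp)) (hl1 3 (by simp))
    (hl1 4 (by simp))
    ⟨h12a 1 (by simp), h12a 2 (by simp), h12b 3 (by simp), h12b 4 (by simp)⟩
    ⟨h23a 2 (by simp), h23a 3 (by simp), h23b 4 (by simp), h23b 1 (by simp)⟩
    ⟨h34a 3 (by simp), h34a 4 (by simp), h34b 1 (by simp), h34b 2 (by simp)⟩
    ⟨h41a 4 (by simp), h41a 1 (by simp), h41b 2 (by simp), h41b 3 (by simp)⟩
  have hi : (interior (convexHull ℝ {g 0, g 1, g 2, g 3, g 4})).Nonempty := by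
    rw [← hQh]; exact hQ.2
  have h0 : ∫ x in convexHull ℝ {g 0, g 1, g 2, g 3, g 4}, x = 0 := by
    rw [← hQh]
    have hv : volume.real Q ≠ 0 := by
      have h1 : 0 < volume Q := (isOpen_interior.measure_pos volume hQ.2).trans_le
        (measure_mono interior_subset)
      have h2 : volume Q < ⊤ := hcomp.measure_lt_top
      exact (ENNReal.toReal_pos h1.ne' h2.ne).ne'
    have := hcm
    unfold cm3 at this
    exact (smul_eq_zero.1 this).resolve_left (inv_ne_zero hv)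
  have hc := pyramid_integral (g 0) (g 1) (g 2) (g 3) (g 4) α1 α2 α3 α4 p1 p2 p3 p4 s13 s24 hx hi h0
  -- positivity of the tangent lengths
  have pos : ∀ i : Fin 5, 1 ≤ ‖g i‖ → (inner ℝ (g i) (g i) = (1 : ℝ) → False) →
      0 < Real.sqrt (‖g i‖ ^ 2 - 1) := by
    intro i h1 h2
    refine lt_of_le_of_ne (Real.sqrt_nonneg _) (fun h => h2 (sqrt_zero_norm _ h1 h.symm))
  have emp : ∀ s : Set E3, s = {g 0, g 1, g 2, g 3, g 4} → interior (convexHull ℝ s) = ∅ → False := by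
    rintro s rfl h
    exact hi.ne_empty h
  have z : ∀ i : Fin 5, inner ℝ (g i) (g i) = (1 : ℝ) → Real.sqrt (‖g i‖ ^ 2 - 1) = 0 := by
    intro i h
    rw [real_inner_self_eq_norm_sq] at h
    rw [h]; simp
  have q0 : 0 < Real.sqrt (‖g 0‖ ^ 2 - 1) := by
    refine pos 0 e01.1 (fun h => ?_)
    have hz := z 0 h
    refine emp _ rfl (not_flat _ (g 0) 1 ?_ ?_)
    · rintro h'
      rw [h'] at h
      simp at h
    · rintro x (rfl | rfl | rfl | rfl | rfl)
      · exact h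
      · rw [e01.2.2, hz]; ring
      · rw [e02.2.2, hz]; ring
      · rw [e03.2.2, hz]; ring
      · rw [e04.2.2, hz]; ring
  have q1 : 0 < Real.sqrt (‖g 1‖ ^ 2 - 1) := by
    refine pos 1 e12.1 (fun h => ?_)
    have hz := z 1 h
    refine emp _ rfl (tpos_base (g 0) (g 1) (g 2) (g 3) (g 4) h ?_ ?_ ?_ α1 α2 α3 α4 p3 s13 s24 hx _
      subset_rfl)
    · rw [e01.2.2, hz]; ring
    · rw [e12.2.2, hz]; ring
    · rw [e41.2.2, hz]; ring
  have q2 : 0 < Real.sqrt (‖g 2‖ ^ 2 - 1) := by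
    refine pos 2 e23.1 (fun h => ?_)
    have hz := z 2 h
    refine emp _ rfl (tpos_base (g 0) (g 2) (g 3) (g 4) (g 1) h ?_ ?_ ?_ α2 α3 α4 α1 p4 s24
      (by linarith) (by rw [← hx, add_comm]) _ ?_)
    · rw [e02.2.2, hz]; ring
    · rw [e23.2.2, hz]; ring
    · rw [e12.2.2, hz]; ring
    · rintro x (rfl | rfl | rfl | rfl | rfl) <;> simp
  have q3 : 0 < Real.sqrt (‖g 3‖ ^ 2 - 1) := by
    refine pos 3 e34.1 (fun h => ?_)
    have hz := z 3 h
    refine emp _ rfl (tpos_base (g 0) (g 3) (g 4) (g 1) (g 2) h ?_ ?_ ?_ α3 α4 α1 α2 p1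
      (by linarith) (by linarith) (by rw [add_comm, hx, add_comm]) _ ?_)
    · rw [e03.2.2, hz]; ring
    · rw [e34.2.2, hz]; ring
    · rw [e23.2.2, hz]; ring
    · rintro x (rfl | rfl | rfl | rfl | rfl) <;> simp
  have q4 : 0 < Real.sqrt (‖g 4‖ ^ 2 - 1) := by
    refine pos 4 e41.1 (fun h => ?_)
    have hz := z 4 h
    refine emp _ rfl (tpos_base (g 0) (g 4) (g 1) (g 2) (g 3) h ?_ ?_ ?_ α4 α1 α2 α3 p2
      (by linarith) (by linarith) (by rw [add_comm, ← hx]) _ ?_)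
    · rw [e04.2.2, hz]; ring
    · rw [e41.2.2, hz]; ring
    · rw [e34.2.2, hz]; ring
    · rintro x (rfl | rfl | rfl | rfl | rfl) <;> simp
  exact core (g 0) (g 1) (g 2) (g 3) (g 4) _ _ _ _ _ q0 q1 q2 q3 q4 (norm_eq _ e01.1)
    (norm_eq _ e12.1) (norm_eq _ e23.1) (norm_eq _ e34.1) (norm_eq _ e41.1)
    e01.2.2 e02.2.2 e03.2.2 e04.2.2 e12.2.2 e23.2.2 e34.2.2 e41.2.2
    α1 α2 α3 α4 p1 p2 p3 p4 s13 s24 hx hc

theorem exists_class : ∃ P : Set E3, IsPolyhedron P ∧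
    ∀ Q : Set E3, IsPolyhedron Q → SameType P Q → IsMidscribed Q → cm3 Q ≠ 0 :=
  ⟨pyr, pyr_poly, main⟩

end Pool.Agent.Helper988.KC
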